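import Mathlib

/-!
Counting lemmas used for the Ramsey Cayley graph theorem.
-/

namespace Helper7.Ramsey

open Finset
open scoped Pointwise

/-- the finset of subsets of `M` of size at most `r`. -/
def smallSubsets {α : Type*} [DecidableEq α] (M : Finset α) (r : ℕ) : Finset (Finset α) :=
  M.powerset.filter (fun X => X.card ≤ r)

lemma mem_smallSubsets {α : Type*} [DecidableEq α] {M : Finset α} {r : ℕ} {X : Finset α} :
    X ∈ smallSubsets M r ↔ X ⊆ M ∧ X.card ≤ r := by
  simp [smallSubsets]

lemma card_smallSubsets_le {α : Type*} [DecidableEq α] (M : Finset α) (r : ℕ) :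
    (smallSubsets M r).card ≤ (M.card + 1) ^ r := by
  induction r with
  | zero =>
    have : smallSubsets M 0 ⊆ {∅} := by
      intro X hX
      rw [mem_smallSubsets] at hX
      have : X = ∅ := card_eq_zero.mp (Nat.le_zero.mp hX.2)
      simp [this]
    simpa using card_le_card this
  | succ r ih =>
    have hsub : smallSubsets M (r + 1) ⊆ smallSubsets M r ∪
        (smallSubsets M r ×ˢ M).image (fun p => insert p.2 p.1) := by
      intro X hX
      rw [mem_smallSubsets] at hX
      rw [mem_union]
      by_cases h : X.card ≤ r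
      · left; exact mem_smallSubsets.mpr ⟨hX.1, h⟩
      · right
        have hc : X.card = r + 1 := by omega
        have hne : X.Nonempty := by
          rw [← card_pos]; omega
        obtain ⟨x, hx⟩ := hne
        rw [mem_image]
        refine ⟨(X.erase x, x), ?_, ?_⟩
        · rw [mem_product]
          refine ⟨mem_smallSubsets.mpr ⟨(erase_subset _ _).trans hX.1, ?_⟩, hX.1 hx⟩
          rw [card_erase_of_mem hx]; omega
        · exact insert_erase hx
    calc (smallSubsets M (r + 1)).card ≤ _ := card_le_card hsub
      _ ≤ (smallSubsets M r).card + ((smallSubsets M r ×ˢ M).image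
            (fun p => insert p.2 p.1)).card := card_union_le _ _
      _ ≤ (smallSubsets M r).card + (smallSubsets M r ×ˢ M).card := by
          gcongr; exact card_image_le
      _ = (smallSubsets M r).card * (M.card + 1) := by rw [card_product]; ring
      _ ≤ (M.card + 1) ^ r * (M.card + 1) := by gcongr
      _ = (M.card + 1) ^ (r + 1) := by ring

/-- the number of subsets of size at most `s` of a set of size at most `K * s` is at most
`(4K)^s`. -/
lemma card_smallSubsets_le' {α : Type*} [DecidableEq α] (M : Finset α) (s K : ℕ) (hK : 1 ≤ K)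
    (hM : M.card ≤ K * s) :
    (smallSubsets M s).card ≤ (4 * K) ^ s := by
  -- `∑_{i ≤ s} C(Ks, i) ≤ (1 + 1/K)^{Ks} K^s ≤ 3^s K^s`
  have h1 : (smallSubsets M s).card = ∑ i ∈ range (s + 1), M.card.choose i := by
    have : smallSubsets M s = (range (s + 1)).biUnion (fun i => M.powersetCard i) := by
      ext X
      simp only [mem_smallSubsets, mem_biUnion, mem_range, mem_powersetCard]
      constructor
      · rintro ⟨h1, h2⟩
        exact ⟨X.card, by omega, h1, rfl⟩
      · rintro ⟨i, hi, h1, h2⟩
        exact ⟨h1, by omega⟩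
    rw [this, card_biUnion]
    · simp
    · intro i _ j _ hij
      rw [Function.onFun, disjoint_left]
      intro X hX hX'
      rw [mem_powersetCard] at hX hX'
      exact hij (hX.2.symm.trans hX'.2)
  have hKpos : (0 : ℝ) < K := by exact_mod_cast hK
  have h2 : ((∑ i ∈ range (s + 1), M.card.choose i : ℕ) : ℝ) ≤
      (K : ℝ) ^ s * (1 / (K : ℝ) + 1) ^ M.card := by
    rw [add_pow]
    push_cast
    rw [mul_sum]
    by_cases hle : s ≤ M.card
    · calc ∑ i ∈ range (s + 1), (M.card.choose i : ℝ)
          ≤ ∑ i ∈ range (s + 1), (K : ℝ) ^ s *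
              ((1 / (K : ℝ)) ^ i * 1 ^ (M.card - i) * (M.card.choose i : ℝ)) := by
            apply sum_le_sum
            intro i hi
            have hi' : i ≤ s := by have := mem_range.mp hi; omega
            rw [one_pow, mul_one, ← mul_assoc]
            have : (1 : ℝ) ≤ (K : ℝ) ^ s * (1 / (K : ℝ)) ^ i := by
              rw [one_div, inv_pow, ← div_eq_mul_inv, le_div_iff₀ (by positivity), one_mul]
              exact pow_le_pow_right₀ (by exact_mod_cast hK) hi'
            calc (M.card.choose i : ℝ) = 1 * (M.card.choose i : ℝ) := by ring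
              _ ≤ _ := by gcongr
        _ ≤ ∑ i ∈ range (M.card + 1), (K : ℝ) ^ s *
              ((1 / (K : ℝ)) ^ i * 1 ^ (M.card - i) * (M.card.choose i : ℝ)) := by
            apply sum_le_sum_of_subset_of_nonneg
            · intro i hi
              rw [mem_range] at hi ⊢
              omega
            · intro i _ _
              positivity
    · push Not at hle
      have : ∑ i ∈ range (s + 1), (M.card.choose i : ℝ) =
          ∑ i ∈ range (M.card + 1), (M.card.choose i : ℝ) := by
        symm
        apply sum_subset
        · intro i hi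
          rw [mem_range] at hi ⊢
          omega
        · intro i _ hi
          rw [mem_range] at hi
          rw [Nat.choose_eq_zero_of_lt (by omega)]
          simp
      rw [this]
      apply sum_le_sum
      intro i hi
      have hi' : i ≤ s := by have := mem_range.mp hi; omega
      rw [one_pow, mul_one, ← mul_assoc]
      have : (1 : ℝ) ≤ (K : ℝ) ^ s * (1 / (K : ℝ)) ^ i := by
        rw [one_div, inv_pow, ← div_eq_mul_inv, le_div_iff₀ (by positivity), one_mul]
        exact pow_le_pow_right₀ (by exact_mod_cast hK) hi'
      calc (M.card.choose i : ℝ) = 1 * (M.card.choose i : ℝ) := by ring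
        _ ≤ _ := by gcongr
  have h3 : (1 / (K : ℝ) + 1) ^ M.card ≤ 4 ^ s := by
    calc (1 / (K : ℝ) + 1) ^ M.card ≤ (1 / (K : ℝ) + 1) ^ (K * s) := by
          apply pow_le_pow_right₀ _ hM
          have : (0 : ℝ) < 1 / (K : ℝ) := by positivity
          linarith
      _ = ((1 / (K : ℝ) + 1) ^ K) ^ s := by rw [pow_mul]
      _ ≤ (Real.exp 1) ^ s := by
          apply pow_le_pow_left₀ (by positivity)
          calc (1 / (K : ℝ) + 1) ^ K ≤ (Real.exp (1 / (K : ℝ))) ^ K := by
                apply pow_le_pow_left₀ (by positivity)
                exact Real.add_one_le_exp _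
            _ = Real.exp 1 := by
                rw [← Real.exp_nat_mul]
                congr 1
                field_simp
      _ ≤ 4 ^ s := by
          apply pow_le_pow_left₀ (Real.exp_pos _).le
          have := Real.exp_one_lt_d9
          linarith
  have h4 : ((smallSubsets M s).card : ℝ) ≤ ((4 * K) ^ s : ℕ) := by
    rw [h1]
    calc ((∑ i ∈ range (s + 1), M.card.choose i : ℕ) : ℝ) ≤ _ := h2
      _ ≤ (K : ℝ) ^ s * 4 ^ s := by gcongr
      _ = ((4 * K) ^ s : ℕ) := by push_cast; rw [mul_pow]; ring
  exact_mod_cast h4

lemma two_mul_pow_le {x f b : ℕ} (hb : x + f ≤ b * f) (hf : 1 ≤ f) :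
    2 * x ^ b ≤ (x + f) ^ b := by
  rcases Nat.eq_zero_or_pos x with hx | hx
  · subst hx
    have hb0 : b ≠ 0 := by
      rintro rfl
      omega
    simp [hb0]
  · have hx' : (0 : ℝ) < x := by exact_mod_cast hx
    have h1 : (1 : ℝ) + b * ((f : ℝ) / x) ≤ (1 + (f : ℝ) / x) ^ b := by
      apply one_add_mul_le_pow
      have : (0 : ℝ) ≤ (f : ℝ) / x := by positivity
      linarith
    have h2 : (1 : ℝ) ≤ b * ((f : ℝ) / x) := by
      rw [← mul_div_assoc, le_div_iff₀ hx']
      have : ((x + f : ℕ) : ℝ) ≤ ((b * f : ℕ) : ℝ) := by exact_mod_cast hb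
      push_cast at this
      have hf' : (0 : ℝ) ≤ f := by positivity
      linarith
    have h3 : (2 : ℝ) ≤ (1 + (f : ℝ) / x) ^ b := by linarith
    have h4 : (2 : ℝ) * (x : ℝ) ^ b ≤ ((x : ℝ) + f) ^ b := by
      have : ((x : ℝ) + f) ^ b = (1 + (f : ℝ) / x) ^ b * (x : ℝ) ^ b := by
        rw [← mul_pow]
        congr 1
        field_simp
      rw [this]
      gcongr
    exact_mod_cast h4

/-- Hitting set lemma. -/
lemma exists_hitting {α ι : Type*} [DecidableEq α] (A : Finset α) (I : Finset ι)
    (S : ι → Finset α) (f b J : ℕ) (hf : 1 ≤ f) (hS : ∀ i ∈ I, f ≤ (A ∩ S i).card)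
    (hb : A.card ≤ b * f) (hI : I.card < 2 ^ J) :
    ∃ H ⊆ A, H.card ≤ b * J ∧ ∀ i ∈ I, (H ∩ S i).Nonempty := by
  classical
  rcases I.eq_empty_or_nonempty with rfl | hIne
  · exact ⟨∅, by simp, by simp, by simp⟩
  obtain ⟨i0, hi0⟩ := hIne
  have hAf : f ≤ A.card := (hS i0 hi0).trans (card_le_card inter_subset_left)
  set m := b * J with hm
  -- bad functions
  have hcard : ∀ i ∈ I, (Fintype.piFinset (fun _ : Fin m => A \ S i)).card ≤
      (A.card - f) ^ m := by
    intro i hi
    rw [Fintype.card_piFinset]
    simp only [prod_const, card_univ, Fintype.card_fin]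
    apply Nat.pow_le_pow_left
    rw [card_sdiff]
    have := hS i hi
    rw [inter_comm] at this
    omega
  have hlt : (I.biUnion (fun i => Fintype.piFinset (fun _ : Fin m => A \ S i))).card <
      (Fintype.piFinset (fun _ : Fin m => A)).card := by
    have hApos : 0 < A.card := by omega
    calc (I.biUnion (fun i => Fintype.piFinset (fun _ : Fin m => A \ S i))).card
        ≤ I.card * (A.card - f) ^ m := card_biUnion_le_card_mul _ _ _ hcard
      _ < (A.card) ^ m := by
        rcases Nat.eq_zero_or_pos ((A.card - f) ^ m) with h0 | h0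
        · rw [h0, mul_zero]
          positivity
        · calc I.card * (A.card - f) ^ m < 2 ^ J * (A.card - f) ^ m := by
                exact Nat.mul_lt_mul_of_pos_right hI h0
            _ = (2 * (A.card - f) ^ b) ^ J := by
                rw [mul_pow, hm, pow_mul]
            _ ≤ ((A.card - f + f) ^ b) ^ J := by
                apply Nat.pow_le_pow_left
                apply two_mul_pow_le _ hf
                have : A.card - f + f = A.card := by omega
                rw [this]
                exact hb
            _ = A.card ^ m := by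
                have : A.card - f + f = A.card := by omega
                rw [this, hm, pow_mul]
      _ = (Fintype.piFinset (fun _ : Fin m => A)).card := by
        rw [Fintype.card_piFinset]
        simp
  obtain ⟨g, hg1, hg2⟩ := exists_mem_notMem_of_card_lt_card hlt
  refine ⟨univ.image g, ?_, ?_, ?_⟩
  · intro x hx
    rw [mem_image] at hx
    obtain ⟨i, _, rfl⟩ := hx
    exact (Fintype.mem_piFinset.mp hg1) i
  · exact card_image_le.trans (by simp)
  · intro i hi
    by_contra hne
    apply hg2
    rw [mem_biUnion]
    refine ⟨i, hi, ?_⟩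
    rw [Fintype.mem_piFinset]
    intro k
    rw [mem_sdiff]
    refine ⟨(Fintype.mem_piFinset.mp hg1) k, fun hk => hne ?_⟩
    exact ⟨g k, mem_inter.mpr ⟨mem_image.mpr ⟨k, mem_univ _, rfl⟩, hk⟩⟩

variable {G : Type*} [AddCommGroup G] [DecidableEq G]

/-- Greedy lemma: a set `A` has a small subset with many differences. -/
lemma greedy_aux (A : Finset G) (M : ℕ) (hM : 2 * M ≤ A.card) (hA : A.Nonempty) (j : ℕ) :
    ∃ B ⊆ A, B.Nonempty ∧ B.card ≤ j + 1 ∧
      (M ≤ (B - B).card ∨ (B.card = j + 1 ∧ j * (j + 1) ≤ 4 * (B - B).card)) := by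
  induction j with
  | zero =>
    obtain ⟨a, ha⟩ := hA
    refine ⟨{a}, by simpa using ha, by simp, by simp, Or.inr ⟨by simp, by simp⟩⟩
  | succ j ih =>
    obtain ⟨B, hBA, hBne, hBc, h | ⟨hBc', hD⟩⟩ := ih
    · exact ⟨B, hBA, hBne, by omega, Or.inl h⟩
    by_cases hML : M ≤ (B - B).card
    · exact ⟨B, hBA, hBne, by omega, Or.inl hML⟩
    push Not at hML
    -- some `t ∈ A` adds many new differences
    have key : ∃ t ∈ A, B.card ≤ 2 * (B.filter (fun b => t - b ∉ B - B)).card := by
      by_contra hcon
      push Not at hcon
      have h1 : ∑ t ∈ A, 2 * (B.filter (fun b => t - b ∉ B - B)).card < ∑ t ∈ A, B.card :=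
        sum_lt_sum_of_nonempty hA hcon
      have h2 : ∑ t ∈ A, (B.filter (fun b => t - b ∉ B - B)).card =
          ∑ b ∈ B, (A.filter (fun t => t - b ∉ B - B)).card := by
        simp only [card_filter]
        rw [sum_comm]
      have h3 : ∀ b ∈ B, A.card ≤ 2 * (A.filter (fun t => t - b ∉ B - B)).card := by
        intro b hb
        have h4 : (A.filter (fun t => t - b ∈ B - B)).card ≤ (B - B).card := by
          apply card_le_card_of_injOn (fun t => t - b)
          · intro t ht
            exact (mem_filter.mp ht).2
          · intro t _ t' _ h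
            exact sub_left_injective h
        have h5 : (A.filter (fun t => t - b ∈ B - B)).card +
            (A.filter (fun t => ¬ (t - b ∈ B - B))).card = A.card :=
          card_filter_add_card_filter_not _
        have h6 : (A.filter (fun t => t - b ∉ B - B)).card =
          (A.filter (fun t => ¬ (t - b ∈ B - B))).card := rfl
        omega
      have h4 : ∑ b ∈ B, A.card ≤ ∑ b ∈ B, 2 * (A.filter (fun t => t - b ∉ B - B)).card :=
        sum_le_sum h3
      rw [← mul_sum, h2, mul_sum] at h1
      simp only [sum_const, smul_eq_mul] at h1 h4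
      have : B.card * A.card < A.card * B.card := lt_of_le_of_lt h4 h1
      rw [mul_comm] at this
      exact lt_irrefl _ this
    obtain ⟨t, htA, ht⟩ := key
    have htB : t ∉ B := by
      intro htB
      have : B.filter (fun b => t - b ∉ B - B) = ∅ := by
        apply filter_eq_empty_iff.mpr
        intro b hb
        simp only [not_not]
        exact sub_mem_sub htB hb
      rw [this] at ht
      simp only [card_empty, mul_zero, Nat.le_zero, card_eq_zero] at ht
      exact hBne.ne_empty ht
    refine ⟨insert t B, ?_, by simp, ?_, Or.inr ⟨?_, ?_⟩⟩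
    · exact insert_subset htA hBA
    · rw [card_insert_of_notMem htB]; omega
    · rw [card_insert_of_notMem htB]; omega
    · have hsub : (B - B) ∪ (B.filter (fun b => t - b ∉ B - B)).image (fun b => t - b) ⊆
          insert t B - insert t B := by
        apply union_subset
        · exact sub_subset_sub (subset_insert _ _) (subset_insert _ _)
        · intro x hx
          rw [mem_image] at hx
          obtain ⟨b, hb, rfl⟩ := hx
          exact sub_mem_sub (mem_insert_self _ _) (mem_insert_of_mem (mem_filter.mp hb).1)
      have hdisj : Disjoint (B - B) ((B.filter (fun b => t - b ∉ B - B)).image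
          (fun b => t - b)) := by
        rw [disjoint_right]
        intro x hx
        rw [mem_image] at hx
        obtain ⟨b, hb, rfl⟩ := hx
        exact (mem_filter.mp hb).2
      have hc := card_le_card hsub
      rw [card_union_of_disjoint hdisj, card_image_of_injective _ (sub_right_injective)] at hc
      have e1 : (j + 1) * (j + 1 + 1) = j * (j + 1) + 2 * (j + 1) := by ring
      rw [e1]
      rw [hBc'] at ht
      omega

lemma exists_subset_many_differences (A : Finset G) (s M j : ℕ) (hM : 2 * M ≤ A.card)
    (hsA : s ≤ A.card) (hj : j + 1 ≤ s) (hj2 : 4 * M ≤ j * (j + 1)) :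
    ∃ B ⊆ A, B.card = s ∧ M ≤ (B - B).card := by
  have hA : A.Nonempty := by
    rw [← card_pos]; omega
  obtain ⟨B, hBA, _, hBc, h⟩ := greedy_aux A M hM hA j
  have hM' : M ≤ (B - B).card := by
    rcases h with h | ⟨_, h⟩
    · exact h
    · omega
  obtain ⟨B', hBB', hB'A, hB'c⟩ := exists_subsuperset_card_eq hBA (by omega : B.card ≤ s) hsA
  exact ⟨B', hB'A, hB'c, hM'.trans (card_le_card (sub_subset_sub hBB' hBB'))⟩

end Helper7.Ramsey
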