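import Pool.Agent.helper7.Ramsey.Small3

/-!
The final counting statement.
-/

namespace Helper7.Ramsey

open Finset
open scoped Pointwise

variable {G : Type*} [AddCommGroup G] [DecidableEq G] [Fintype G]

lemma aux_pow (j : ℕ) (hj : 16 ≤ j) : 2000 * j + 80 ≤ 2 ^ j := by
  obtain ⟨e, rfl⟩ := Nat.exists_eq_add_of_le hj
  have : e < 2 ^ e := Nat.lt_two_pow_self
  rw [pow_add]
  norm_num
  omega

lemma four_mul_pow_le (K s' : ℕ) (hK : 1024 ≤ K) : (4 * K) ^ (16 * s') ≤ 2 ^ (K * s') := by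
  have h1 : (4 * K) ^ 16 ≤ 2 ^ K := by
    -- `4 K ≤ 2 ^ (K / 16)`
    have h2 : 4 * K ≤ 2 ^ (K / 16) := by
      set a := K / 16 with ha
      have h3 : K < 16 * (a + 1) := by omega
      have h4 : 64 ≤ a := by omega
      obtain ⟨e, he⟩ := Nat.exists_eq_add_of_le h4
      have h5 : e < 2 ^ e := Nat.lt_two_pow_self
      have h6 : 2 ^ a = 2 ^ 64 * 2 ^ e := by rw [he, pow_add]
      have h7 : (2 : ℕ) ^ 64 = 18446744073709551616 := by norm_num
      rw [h6, h7]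
      omega
    calc (4 * K) ^ 16 ≤ (2 ^ (K / 16)) ^ 16 := Nat.pow_le_pow_left h2 16
      _ = 2 ^ (K / 16 * 16) := by rw [← pow_mul]
      _ ≤ 2 ^ K := Nat.pow_le_pow_right (by norm_num) (Nat.div_mul_le_self K 16)
  calc (4 * K) ^ (16 * s') = ((4 * K) ^ 16) ^ s' := by rw [pow_mul]
    _ ≤ (2 ^ K) ^ s' := Nat.pow_le_pow_left h1 s'
    _ = 2 ^ (K * s') := by rw [← pow_mul]

/-- the number of sets with small doubling. -/
lemma count_small (q j K k μ s' : ℕ) (hq : q = 2 ^ j) (hj : 16 ≤ j) (hs' : q ^ 50 = 16 * s')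
    (hK1 : 1024 ≤ K) (hK : K ≤ q ^ 2) (hkq : k ≤ q)
    (hk : ∀ c : ℕ, 1 ≤ c → (univ.filter (fun x : G => c • x = 0)).card ≤ c ^ k)
    (hμ : Fintype.card G + 1 ≤ 2 ^ μ) (hμs : 4096 * μ ≤ q ^ 50) :
    ((univ.powersetCard (q ^ 50)).filter (fun A : Finset G => (A - A).card ≤ K * q ^ 50)).card ≤
      2 ^ (4 * (K * s')) := by
  have hjq := aux_pow j hj
  rw [← hq] at hjq
  have hq1 : 32000 ≤ q := by omega
  have hqpos : 0 < q := by omega
  have hsub : ((univ.powersetCard (q ^ 50)).filter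
      (fun A : Finset G => (A - A).card ≤ K * q ^ 50)) ⊆
      coverFam K (q ^ 50) (q ^ 5) ((8 * q ^ 5) ^ (q ^ 5)) (q ^ 33) (q ^ 42) := by
    intro A hA
    rw [mem_filter, mem_powersetCard] at hA
    exact mem_coverFam A q j K hq hj hA.1.2 hK hA.2
  refine (card_le_card hsub).trans ?_
  refine (card_coverFam_le K (q ^ 50) (q ^ 5) ((8 * q ^ 5) ^ (q ^ 5)) (q ^ 33) (q ^ 42) k
    (by omega) hk).trans ?_
  -- powers of `q`
  have hmono : ∀ a b : ℕ, a ≤ b → q ^ a ≤ q ^ b := fun a b h => Nat.pow_le_pow_right hqpos h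
  have hΔ : (8 * q ^ 5) ^ (q ^ 5) ≤ 2 ^ (q ^ 6) := by
    have h1 : 8 * q ^ 5 = 2 ^ (5 * j + 3) := by
      rw [hq, pow_add, ← pow_mul, mul_comm j 5]; ring
    rw [h1, ← pow_mul]
    apply Nat.pow_le_pow_right (by norm_num)
    calc (5 * j + 3) * q ^ 5 ≤ q * q ^ 5 := by gcongr; omega
      _ = q ^ 6 := by ring
  have hΔ1 : 1 ≤ (8 * q ^ 5) ^ (q ^ 5) := Nat.one_le_pow _ _ (by positivity)
  set Δ := (8 * q ^ 5) ^ (q ^ 5) with hΔdef
  have h2Δ : 2 * Δ + 1 ≤ 2 ^ (q ^ 6 + 2) := by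
    rw [pow_add]
    omega
  have hCl : Δ * ((2 * Δ + 1) ^ (2 * K) * Δ ^ k) + 1 ≤ 2 ^ (q ^ 10) := by
    have h1 : Δ * ((2 * Δ + 1) ^ (2 * K) * Δ ^ k) ≤
        2 ^ (q ^ 6 + ((q ^ 6 + 2) * (2 * K) + q ^ 6 * k)) := by
      have e : 2 ^ (q ^ 6 + ((q ^ 6 + 2) * (2 * K) + q ^ 6 * k)) =
          2 ^ (q ^ 6) * ((2 ^ (q ^ 6 + 2)) ^ (2 * K) * (2 ^ (q ^ 6)) ^ k) := by
        rw [← pow_mul, ← pow_mul, ← pow_add, ← pow_add]
      rw [e]
      exact Nat.mul_le_mul hΔ (Nat.mul_le_mul (Nat.pow_le_pow_left h2Δ _)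
        (Nat.pow_le_pow_left hΔ _))
    have h2 : q ^ 6 + ((q ^ 6 + 2) * (2 * K) + q ^ 6 * k) + 1 ≤ q ^ 10 := by
      have e1 : (q ^ 6 + 2) * (2 * K) ≤ (2 * q ^ 6) * (2 * q ^ 2) := by
        gcongr
        have h3 := hmono 1 6 (by norm_num)
        rw [pow_one] at h3
        omega
      have e2 : (2 * q ^ 6) * (2 * q ^ 2) = 4 * q ^ 8 := by ring
      have e3 : q ^ 6 * k ≤ q ^ 6 * q := by gcongr
      have e4 : q ^ 6 * q = q ^ 7 := by ring
      have e5 := hmono 6 8 (by norm_num)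
      have e6 := hmono 7 8 (by norm_num)
      have e7 : q ^ 10 = q * q * q ^ 8 := by ring
      have e8 : 8 * 1 * q ^ 8 ≤ q * q * q ^ 8 :=
        Nat.mul_le_mul (Nat.mul_le_mul (by omega) (by omega)) le_rfl
      have e9 : 1 ≤ q ^ 8 := Nat.one_le_pow _ _ hqpos
      omega
    have h3 : 2 ^ (q ^ 6 + ((q ^ 6 + 2) * (2 * K) + q ^ 6 * k) + 1) ≤ 2 ^ (q ^ 10) :=
      Nat.pow_le_pow_right (by norm_num) h2
    have h4 : 1 ≤ 2 ^ (q ^ 6 + ((q ^ 6 + 2) * (2 * K) + q ^ 6 * k)) := Nat.one_le_two_pow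
    rw [pow_succ] at h3
    omega
  have h3r : 3 ^ (q ^ 5) + 1 ≤ 2 ^ (q ^ 6) := by
    have h1 : 3 ^ (q ^ 5) + 1 ≤ 4 ^ (q ^ 5) := by
      have h2 : 3 ^ (q ^ 5) < 4 ^ (q ^ 5) := by
        apply Nat.pow_lt_pow_left (by norm_num)
        positivity
      omega
    refine h1.trans ?_
    have h2 : (4 : ℕ) ^ (q ^ 5) = 2 ^ (2 * q ^ 5) := by rw [pow_mul]; norm_num
    rw [h2]
    apply Nat.pow_le_pow_right (by norm_num)
    calc 2 * q ^ 5 ≤ q * q ^ 5 := by gcongr; omega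
      _ = q ^ 6 := by ring
  have h3r' : 3 ^ (q ^ 5) ≤ 2 ^ (q ^ 6) := by omega
  have h4K : (4 * K) ^ (q ^ 50) ≤ 2 ^ (K * s') := by
    rw [hs']
    exact four_mul_pow_le K s' hK1
  calc (Fintype.card G + 1) ^ (2 * K) * ((Δ * ((2 * Δ + 1) ^ (2 * K) * Δ ^ k) + 1) ^ (q ^ 5) *
      ((3 ^ (q ^ 5) + 1) ^ (q ^ 33) * (3 ^ (q ^ 5) * ((3 ^ (q ^ 5) + 1) ^ (q ^ 42) *
        (4 * K) ^ (q ^ 50)))))
      ≤ (2 ^ μ) ^ (2 * K) * ((2 ^ (q ^ 10)) ^ (q ^ 5) *
      ((2 ^ (q ^ 6)) ^ (q ^ 33) * (2 ^ (q ^ 6) * ((2 ^ (q ^ 6)) ^ (q ^ 42) *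
        2 ^ (K * s'))))) :=
      Nat.mul_le_mul (Nat.pow_le_pow_left hμ _) (Nat.mul_le_mul (Nat.pow_le_pow_left hCl _)
        (Nat.mul_le_mul (Nat.pow_le_pow_left h3r _) (Nat.mul_le_mul h3r'
          (Nat.mul_le_mul (Nat.pow_le_pow_left h3r _) h4K))))
    _ = 2 ^ (μ * (2 * K) + (q ^ 10 * q ^ 5 + (q ^ 6 * q ^ 33 +
          (q ^ 6 + (q ^ 6 * q ^ 42 + K * s'))))) := by
      rw [← pow_mul 2, ← pow_mul 2, ← pow_mul 2, ← pow_mul 2, ← pow_add 2, ← pow_add 2,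
        ← pow_add 2, ← pow_add 2, ← pow_add 2]
    _ ≤ 2 ^ (4 * (K * s')) := by
      apply Nat.pow_le_pow_right (by norm_num)
      have e1 : 256 * μ ≤ s' := by omega
      have e2 : μ * (2 * K) ≤ K * s' := by
        calc μ * (2 * K) ≤ μ * (256 * K) := by gcongr; norm_num
          _ = K * (256 * μ) := by ring
          _ ≤ K * s' := by gcongr
      have e3 := hmono 15 48 (by norm_num)
      have e4 := hmono 39 48 (by norm_num)
      have e5 := hmono 6 48 (by norm_num)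
      have e6 : 16 * s' = q * q * q ^ 48 := by rw [← hs']; ring
      have e7 : 64 * 1 * q ^ 48 ≤ q * q * q ^ 48 :=
        Nat.mul_le_mul (Nat.mul_le_mul (by omega) (by omega)) le_rfl
      have e8 : 1 * s' ≤ K * s' := Nat.mul_le_mul (by omega) le_rfl
      have e9 : q ^ 10 * q ^ 5 = q ^ 15 := by rw [← pow_add]
      have e10 : q ^ 6 * q ^ 33 = q ^ 39 := by rw [← pow_add]
      have e11 : q ^ 6 * q ^ 42 = q ^ 48 := by rw [← pow_add]
      omega

/-- the number of sets with large doubling. -/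
lemma count_large (q j K μ s' : ℕ) (hq : q = 2 ^ j) (hj : 16 ≤ j) (hs' : q ^ 50 = 16 * s')
    (hK : q ^ 2 ≤ K)
    (hμ : Fintype.card G + 1 ≤ 2 ^ μ) (hμs : 4096 * μ ≤ q ^ 50) :
    ((univ.powersetCard (q ^ 50)).filter (fun A : Finset G => (A - A).card ≤ K * q ^ 50)).card ≤
      2 ^ (4 * (K * s')) := by
  have hjq := aux_pow j hj
  rw [← hq] at hjq
  have hq1 : 32000 ≤ q := by omega
  have hqpos : 0 < q := by omega
  have hspos : 0 < q ^ 50 := by positivity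
  have hs'pos : 0 < s' := by omega
  have hK1 : 1 ≤ K := by
    have : 1 ≤ q ^ 2 := Nat.one_le_pow _ _ hqpos
    omega
  -- parameters
  set h := Nat.sqrt (96 * K) + 1 with hh
  have hh1 : 96 * K ≤ h * h := (Nat.lt_succ_sqrt (96 * K)).le
  have hh2 : (h - 1) * (h - 1) ≤ 96 * K := by
    have : h - 1 = Nat.sqrt (96 * K) := by omega
    rw [this]; exact Nat.sqrt_le _
  have hs2 : q ^ 50 = 2 ^ (50 * j) := by rw [hq, ← pow_mul, mul_comm]
  have hm : 2 * q ^ 50 < 2 ^ (50 * j + 2) := by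
    rw [hs2, pow_add]
    have : 0 < 2 ^ (50 * j) := by positivity
    omega
  have hi0 : (2 * h + 1) * (50 * j + 2) ≤ K := by
    have h1 : 4 * ((h - 1) * (50 * j + 2)) ≤ K := by
      by_contra hcon
      push Not at hcon
      have h2 : K * K ≤ (4 * ((h - 1) * (50 * j + 2))) * (4 * ((h - 1) * (50 * j + 2))) := by
        gcongr
      have h3 : (4 * ((h - 1) * (50 * j + 2))) * (4 * ((h - 1) * (50 * j + 2))) =
          (16 * ((50 * j + 2) * (50 * j + 2))) * ((h - 1) * (h - 1)) := by ring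
      have h4 : (16 * ((50 * j + 2) * (50 * j + 2))) * ((h - 1) * (h - 1)) ≤
          (16 * ((50 * j + 2) * (50 * j + 2))) * (96 * K) := by gcongr
      have h5 : (16 * ((50 * j + 2) * (50 * j + 2))) * (96 * K) =
          1536 * ((50 * j + 2) * (50 * j + 2)) * K := by ring
      have h6 : 1600 * ((50 * j + 2) * (50 * j + 2)) ≤ q * q := by
        calc 1600 * ((50 * j + 2) * (50 * j + 2)) = (2000 * j + 80) * (2000 * j + 80) := by ring
          _ ≤ q * q := by gcongr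
      have h7 : q * q ≤ K := by rw [← pow_two]; exact hK
      have h8 : 0 < (50 * j + 2) * (50 * j + 2) := by positivity
      have h9 : 1536 * ((50 * j + 2) * (50 * j + 2)) * K < K * K := by
        apply Nat.mul_lt_mul_of_pos_right _ (by omega)
        omega
      omega
    have h2 : 6 * (50 * j + 2) ≤ K := by
      have : q * 1 ≤ q * q := by gcongr; omega
      rw [pow_two] at hK
      omega
    have h3 : 2 * h + 1 = 2 * (h - 1) + 3 := by omega
    rw [h3]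
    have h4 : (2 * (h - 1) + 3) * (50 * j + 2) =
      2 * ((h - 1) * (50 * j + 2)) + 3 * (50 * j + 2) := by ring
    omega
  have hcard := card_generated_le (G := G) (q ^ 50) (180 * K)
    ((univ.powersetCard (q ^ 50)).filter (fun A : Finset G => (A - A).card ≤ K * q ^ 50))
    (by
      intro A hA
      rw [mem_filter, mem_powersetCard] at hA
      refine ⟨hA.1.2, ?_⟩
      exact exists_generators hA.1.2 hspos hK1 hA.2 h (50 * j + 2) (by omega) hh1 hm hi0)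
  refine hcard.trans ?_
  calc (Fintype.card G + 1) ^ (180 * K) * ((q ^ 50 + 1) * ((q ^ 50) ^ 3) ^ (q ^ 50))
      ≤ (2 ^ μ) ^ (180 * K) * (2 ^ (50 * j + 1) * ((2 ^ (50 * j)) ^ 3) ^ (q ^ 50)) := by
        have h1 : q ^ 50 + 1 ≤ 2 ^ (50 * j + 1) := by
          rw [hs2, pow_succ]
          have : 1 ≤ 2 ^ (50 * j) := Nat.one_le_two_pow
          omega
        exact Nat.mul_le_mul (Nat.pow_le_pow_left hμ _) (Nat.mul_le_mul h1
          (Nat.pow_le_pow_left (Nat.pow_le_pow_left hs2.le _) _))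
    _ = 2 ^ (μ * (180 * K) + (50 * j + 1 + 150 * j * q ^ 50)) := by
        rw [pow_add, pow_add, ← pow_mul, ← pow_mul, ← pow_mul]
        congr 3
        ring
    _ ≤ 2 ^ (4 * (K * s')) := by
      apply Nat.pow_le_pow_right (by norm_num)
      have e1 : 256 * μ ≤ s' := by omega
      have e2 : μ * (180 * K) ≤ K * s' := by
        calc μ * (180 * K) ≤ μ * (256 * K) := by gcongr; norm_num
          _ = K * (256 * μ) := by ring
          _ ≤ K * s' := by gcongr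
      have e3 : 50 * j + 1 + 150 * j * q ^ 50 ≤ K * s' := by
        rw [hs']
        have e4 : 150 * j * (16 * s') = 2400 * j * s' := by ring
        have e5 : (50 * j + 1) * 1 ≤ (50 * j + 1) * s' := by gcongr; omega
        have e6 : (50 * j + 1) * s' + 2400 * j * s' = (2450 * j + 1) * s' := by ring
        have e7 : (2450 * j + 1) * s' ≤ K * s' := by
          gcongr
          have : 2 * q ≤ q * q := by gcongr; omega
          rw [pow_two] at hK
          omega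
        omega
      omega

theorem count_all (q j K k μ s' : ℕ) (hq : q = 2 ^ j) (hj : 16 ≤ j) (hs' : q ^ 50 = 16 * s')
    (hK1 : 1024 ≤ K) (hkq : k ≤ q)
    (hk : ∀ c : ℕ, 1 ≤ c → (univ.filter (fun x : G => c • x = 0)).card ≤ c ^ k)
    (hμ : Fintype.card G + 1 ≤ 2 ^ μ) (hμs : 4096 * μ ≤ q ^ 50) :
    ((univ.powersetCard (q ^ 50)).filter (fun A : Finset G => (A - A).card ≤ K * q ^ 50)).card ≤
      2 ^ (4 * (K * s')) := by
  rcases le_total K (q ^ 2) with h | h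
  · exact count_small q j K k μ s' hq hj hs' hK1 h hkq hk hμ hμs
  · exact count_large q j K μ s' hq hj hs' h hμ hμs

end Helper7.Ramsey
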