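import Mathlib

/-!
The union bound over random symmetric sets.
-/

namespace Helper7.Ramsey

open Finset
open scoped Pointwise

variable {G : Type*} [AddCommGroup G] [DecidableEq G] [Fintype G]

/-- canonical representative of `{x, -x}`. -/
noncomputable def crep (x : G) : G :=
  if ((Fintype.equivFin G) x : ℕ) ≤ ((Fintype.equivFin G) (-x) : ℕ) then x else -x

omit [DecidableEq G] in
lemma crep_eq (x : G) : crep x = x ∨ crep x = -x := by
  rw [crep]
  split_ifs
  · left; rfl
  · right; rfl

omit [DecidableEq G] in
lemma crep_neg (x : G) : crep (-x) = crep x := by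
  rw [crep, crep, neg_neg]
  by_cases h1 : ((Fintype.equivFin G) x : ℕ) ≤ ((Fintype.equivFin G) (-x) : ℕ)
  · by_cases h2 : ((Fintype.equivFin G) (-x) : ℕ) ≤ ((Fintype.equivFin G) x : ℕ)
    · have h3 : (Fintype.equivFin G) x = (Fintype.equivFin G) (-x) := by
        apply Fin.ext
        omega
      have h4 := (Fintype.equivFin G).injective h3
      rw [if_pos h2, if_pos h1]
      exact h4.symm
    · rw [if_neg h2, if_pos h1]
  · have h2 : ((Fintype.equivFin G) (-x) : ℕ) ≤ ((Fintype.equivFin G) x : ℕ) := by omega
    rw [if_pos h2, if_neg h1]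

/-- the set of representatives of nonzero differences. -/
noncomputable def edg (A : Finset G) : Finset G := ((A - A).erase 0).image crep

lemma card_edg (A : Finset G) : (A - A).card ≤ 2 * (edg A).card + 1 := by
  have h1 : ((A - A).erase 0).card ≤ 2 * (((A - A).erase 0).image crep).card := by
    apply card_le_mul_card_image
    intro b _
    have : ((A - A).erase 0).filter (fun x => crep x = b) ⊆ {b, -b} := by
      intro x hx
      rw [mem_filter] at hx
      rw [mem_insert, mem_singleton]
      rcases crep_eq x with h | h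
      · left; rw [← hx.2, h]
      · right; rw [← hx.2, h, neg_neg]
    exact (card_le_card this).trans card_le_two
  have h2 : (A - A).card ≤ ((A - A).erase 0).card + 1 := by
    have := card_erase_add_one (s := A - A) (a := (0 : G))
    by_cases h0 : (0 : G) ∈ A - A
    · have := this h0
      omega
    · rw [erase_eq_of_notMem h0]; omega
  rw [edg]
  omega

omit [AddCommGroup G] in
/-- colourings constant on `E`. -/
lemma card_constant (E : Finset G) (b : Bool) :
    (univ.filter (fun c : G → Bool => ∀ x ∈ E, c x = b)).card * 2 ^ E.card =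
      2 ^ Fintype.card G := by
  have h1 : (univ.filter (fun c : G → Bool => ∀ x ∈ E, c x = b)) =
      Fintype.piFinset (fun x => if x ∈ E then ({b} : Finset Bool) else univ) := by
    ext c
    rw [mem_filter, Fintype.mem_piFinset]
    constructor
    · rintro ⟨_, h⟩ x
      split_ifs with hx
      · rw [mem_singleton]; exact h x hx
      · exact mem_univ _
    · intro h
      refine ⟨mem_univ _, fun x hx => ?_⟩
      have := h x
      rw [if_pos hx, mem_singleton] at this
      exact this
  rw [h1, Fintype.card_piFinset]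
  have h2 : 2 ^ E.card = ∏ x : G, (if x ∈ E then 2 else 1) := by
    rw [prod_ite_mem, univ_inter, prod_const]
  rw [h2, ← prod_mul_distrib]
  have h3 : ∀ x : G, (if x ∈ E then ({b} : Finset Bool) else univ).card *
      (if x ∈ E then 2 else 1) = 2 := by
    intro x
    split_ifs <;> simp
  rw [prod_congr rfl (fun x _ => h3 x), prod_const, card_univ]

/-- bad colourings for `A`. -/
noncomputable def bad (A : Finset G) : Finset (G → Bool) :=
  (univ.filter (fun c : G → Bool => ∀ x ∈ edg A, c x = true)) ∪
    (univ.filter (fun c : G → Bool => ∀ x ∈ edg A, c x = false))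

lemma card_bad (A : Finset G) : (bad A).card * 2 ^ (edg A).card ≤ 2 * 2 ^ Fintype.card G := by
  calc (bad A).card * 2 ^ (edg A).card ≤
      ((univ.filter (fun c : G → Bool => ∀ x ∈ edg A, c x = true)).card +
        (univ.filter (fun c : G → Bool => ∀ x ∈ edg A, c x = false)).card) *
          2 ^ (edg A).card := by
        gcongr
        exact card_union_le _ _
    _ = 2 * 2 ^ Fintype.card G := by
        rw [add_mul, card_constant, card_constant]
        ring

theorem exists_coloring (s s' : ℕ) (hs : s = 16 * s') (hs' : 1 ≤ s')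
    (hcount : ∀ K : ℕ, 1024 ≤ K →
      ((univ.powersetCard s).filter (fun A : Finset G => (A - A).card ≤ K * s)).card ≤
        2 ^ (4 * (K * s'))) :
    ∃ S : Set G, (∀ x ∈ S, -x ∈ S) ∧ (0 : G) ∉ S ∧ ∀ A : Finset G, A.card = s →
      1024 * s ≤ (A - A).card →
      ¬ (∀ x ∈ A, ∀ y ∈ A, x ≠ y → y - x ∈ S) ∧ ¬ (∀ x ∈ A, ∀ y ∈ A, x ≠ y → y - x ∉ S) := by
  classical
  set F := (univ.powersetCard s).filter (fun A : Finset G => 1024 * s ≤ (A - A).card) with hF
  set N := Fintype.card G with hN
  have hspos : 0 < s := by omega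
  set Kf : Finset G → ℕ := fun A => ((A - A).card - 1) / s + 1 with hKf
  have hKf1 : ∀ A ∈ F, 1024 ≤ Kf A := by
    intro A hA
    rw [hF, mem_filter] at hA
    have h1 : 1023 ≤ ((A - A).card - 1) / s := by
      rw [Nat.le_div_iff_mul_le hspos]
      omega
    simp only [hKf]
    omega
  have hKf2 : ∀ A ∈ F, Kf A ∈ range (s + 1) := by
    intro A hA
    rw [hF, mem_filter, mem_powersetCard] at hA
    have h1 : (A - A).card ≤ s * s := by
      refine (card_sub_le).trans ?_
      rw [hA.1.2]
    have h2 : ((A - A).card - 1) / s < s := by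
      rw [Nat.div_lt_iff_lt_mul hspos]
      have : 0 < s * s := by positivity
      omega
    rw [mem_range]
    simp only [hKf]
    omega
  -- bound for each `K`
  have hK : ∀ K ∈ range (s + 1), (∑ A ∈ F.filter (fun A => Kf A = K), (bad A).card) *
      2 ^ (4000 * s') ≤ 2 * 2 ^ N := by
    intro K _
    by_cases hK1 : 1024 ≤ K
    · have h1 : ∀ A ∈ F.filter (fun A => Kf A = K),
          (bad A).card * 2 ^ (8 * ((K - 1) * s')) ≤ 2 * 2 ^ N := by
        intro A hA
        rw [mem_filter] at hA
        have h2 : (K - 1) * s ≤ (A - A).card - 1 := by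
          have : K - 1 = ((A - A).card - 1) / s := by
            rw [← hA.2]
            exact Nat.add_sub_cancel _ _
          rw [this]
          exact Nat.div_mul_le_self _ _
        have h3 := card_edg A
        have h4 : 8 * ((K - 1) * s') ≤ (edg A).card := by
          rw [hs] at h2
          have e : (K - 1) * (16 * s') = 16 * ((K - 1) * s') := by ring
          omega
        calc (bad A).card * 2 ^ (8 * ((K - 1) * s')) ≤ (bad A).card * 2 ^ (edg A).card := by
              gcongr
              norm_num
          _ ≤ 2 * 2 ^ N := card_bad A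
      have h2 : (F.filter (fun A => Kf A = K)).card ≤ 2 ^ (4 * (K * s')) := by
        refine (card_le_card ?_).trans (hcount K hK1)
        intro A hA
        rw [mem_filter, hF, mem_filter] at hA
        rw [mem_filter]
        refine ⟨hA.1.1, ?_⟩
        have h3 := hA.2
        simp only [hKf] at h3
        rw [← h3]
        have h4 := Nat.lt_mul_div_succ ((A - A).card - 1) hspos
        have h5 : (((A - A).card - 1) / s + 1) * s = s * (((A - A).card - 1) / s + 1) := by ring
        omega
      have h3 : (∑ A ∈ F.filter (fun A => Kf A = K), (bad A).card) *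
          2 ^ (8 * ((K - 1) * s')) ≤ 2 ^ (4 * (K * s')) * (2 * 2 ^ N) := by
        rw [sum_mul]
        calc _ ≤ ∑ A ∈ F.filter (fun A => Kf A = K), 2 * 2 ^ N := sum_le_sum h1
          _ = (F.filter (fun A => Kf A = K)).card * (2 * 2 ^ N) := by
              rw [sum_const, smul_eq_mul]
          _ ≤ _ := by gcongr
      have h4 : 4 * (K * s') + 4000 * s' ≤ 8 * ((K - 1) * s') := by
        obtain ⟨e, he⟩ := Nat.exists_eq_add_of_le hK1
        have h5 : K - 1 = 1023 + e := by omega
        rw [h5, he]
        have e1 : (1024 + e) * s' = 1024 * s' + e * s' := by ring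
        have e2 : (1023 + e) * s' = 1023 * s' + e * s' := by ring
        rw [e1, e2]
        omega
      have h5 : (∑ A ∈ F.filter (fun A => Kf A = K), (bad A).card) *
          2 ^ (4 * (K * s') + 4000 * s') ≤ 2 ^ (4 * (K * s')) * (2 * 2 ^ N) := by
        refine le_trans ?_ h3
        gcongr
        norm_num
      rw [pow_add] at h5
      have h6 : 2 ^ (4 * (K * s')) * ((∑ A ∈ F.filter (fun A => Kf A = K), (bad A).card) *
          2 ^ (4000 * s')) ≤ 2 ^ (4 * (K * s')) * (2 * 2 ^ N) := by
        calc _ = (∑ A ∈ F.filter (fun A => Kf A = K), (bad A).card) *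
              (2 ^ (4 * (K * s')) * 2 ^ (4000 * s')) := by ring
          _ ≤ _ := h5
      exact le_of_mul_le_mul_left h6 (by positivity)
    · have : F.filter (fun A => Kf A = K) = ∅ := by
        apply filter_eq_empty_iff.mpr
        intro A hA h
        have := hKf1 A hA
        omega
      rw [this]
      simp
  -- total
  have htotal : (∑ A ∈ F, (bad A).card) * 2 ^ (4000 * s') ≤ (s + 1) * (2 * 2 ^ N) := by
    rw [← sum_fiberwise_of_maps_to hKf2, sum_mul]
    calc _ ≤ ∑ K ∈ range (s + 1), 2 * 2 ^ N := sum_le_sum hK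
      _ = _ := by rw [sum_const, card_range, smul_eq_mul]
  have hlt : ∑ A ∈ F, (bad A).card < 2 ^ N := by
    have h1 : (s + 1) * 2 < 2 ^ (4000 * s') := by
      have h2 : 34 * s' < 2 ^ (4000 * s') := by
        calc 34 * s' < 2 ^ (34 * s') := Nat.lt_two_pow_self
          _ ≤ 2 ^ (4000 * s') := Nat.pow_le_pow_right (by norm_num) (by omega)
      omega
    by_contra hcon
    push Not at hcon
    have h2 : 2 ^ N * 2 ^ (4000 * s') ≤ (∑ A ∈ F, (bad A).card) * 2 ^ (4000 * s') := by gcongr
    have h3 : 2 ^ N * ((s + 1) * 2) < 2 ^ N * 2 ^ (4000 * s') := by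
      apply Nat.mul_lt_mul_of_pos_left h1
      positivity
    have e : (s + 1) * (2 * 2 ^ N) = 2 ^ N * ((s + 1) * 2) := by ring
    omega
  have hcard : (F.biUnion bad).card < (univ : Finset (G → Bool)).card := by
    rw [card_univ, Fintype.card_fun, Fintype.card_bool]
    exact lt_of_le_of_lt card_biUnion_le hlt
  obtain ⟨c, _, hc⟩ := exists_mem_notMem_of_card_lt_card hcard
  refine ⟨{x | x ≠ 0 ∧ c (crep x) = true}, ?_, ?_, ?_⟩
  · rintro x ⟨h1, h2⟩
    refine ⟨neg_ne_zero.mpr h1, ?_⟩
    rw [crep_neg]; exact h2
  · rintro ⟨h, _⟩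
    exact h rfl
  · intro A hA hd
    have hAF : A ∈ F := by
      rw [hF, mem_filter, mem_powersetCard]
      exact ⟨⟨subset_univ _, hA⟩, hd⟩
    have hcA : c ∉ bad A := fun h => hc (mem_biUnion.mpr ⟨A, hAF, h⟩)
    rw [bad, mem_union, mem_filter, mem_filter, not_or] at hcA
    constructor
    · intro hcl
      apply hcA.1
      refine ⟨mem_univ _, ?_⟩
      intro z hz
      rw [edg, mem_image] at hz
      obtain ⟨x, hx, rfl⟩ := hz
      rw [mem_erase, mem_sub] at hx
      obtain ⟨hx0, a, ha, b, hb, rfl⟩ := hx
      have hne : b ≠ a := by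
        rintro rfl
        exact hx0 (sub_self _)
      exact (hcl b hb a ha hne).2
    · intro hcl
      apply hcA.2
      refine ⟨mem_univ _, ?_⟩
      intro z hz
      rw [edg, mem_image] at hz
      obtain ⟨x, hx, rfl⟩ := hz
      rw [mem_erase, mem_sub] at hx
      obtain ⟨hx0, a, ha, b, hb, rfl⟩ := hx
      have hne : b ≠ a := by
        rintro rfl
        exact hx0 (sub_self _)
      have h1 := hcl b hb a ha hne
      by_contra h2
      apply h1
      refine ⟨hx0, ?_⟩
      simpa using h2

end Helper7.Ramsey
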