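import Pool.Agent.helper7.Ramsey.Count
import Pool.Agent.helper7.Ramsey.Union

/-!
The final theorem.
-/

namespace Helper7.Ramsey

open Finset
open scoped Pointwise

/-- The main theorem for abelian groups of small rank (the rank enters through the number of
`c`-torsion elements). -/
theorem main_general (G : Type*) [AddCommGroup G] [DecidableEq G] [Fintype G]
    (q j k μ : ℕ) (hq : q = 2 ^ j) (hj : 16 ≤ j) (hkq : k ≤ q)
    (hk : ∀ c : ℕ, 1 ≤ c → (univ.filter (fun x : G => c • x = 0)).card ≤ c ^ k)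
    (hμ : Fintype.card G + 1 ≤ 2 ^ μ) (hμs : 4096 * μ ≤ q ^ 50) :
    ∃ S : Set G, (∀ x ∈ S, -x ∈ S) ∧ (0 : G) ∉ S ∧ ∀ A : Finset G,
      ((∀ x ∈ A, ∀ y ∈ A, x ≠ y → y - x ∈ S) ∨ (∀ x ∈ A, ∀ y ∈ A, x ≠ y → y - x ∉ S)) →
      A.card < 2048 * q ^ 50 := by
  have hq16 : q ^ 50 = 16 * (2 ^ (50 * j - 4)) := by
    rw [hq, ← pow_mul]
    have : (16 : ℕ) = 2 ^ 4 := by norm_num
    rw [this, ← pow_add]
    congr 1
    omega
  obtain ⟨S, hS1, hS2, hS3⟩ := exists_coloring (G := G) (q ^ 50) (2 ^ (50 * j - 4)) hq16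
    Nat.one_le_two_pow
    (fun K hK => count_all q j K k μ _ hq hj hq16 hK hkq hk hμ hμs)
  refine ⟨S, hS1, hS2, ?_⟩
  intro A hA
  by_contra hcon
  push Not at hcon
  have hjq := aux_pow j hj
  rw [← hq] at hjq
  have hqpos : 0 < q := by omega
  have hs : q ≤ q ^ 50 := Nat.le_self_pow (by norm_num) q
  obtain ⟨B, hBA, hBc, hBd⟩ := exists_subset_many_differences A (q ^ 50) (1024 * q ^ 50)
    (q ^ 50 - 1) (by omega) (by omega) (by omega)
    (by
      have e1 : q ^ 50 - 1 + 1 = q ^ 50 := by omega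
      rw [e1]
      have e2 : 4096 * q ^ 50 ≤ (q ^ 50 - 1) * q ^ 50 := by
        gcongr
        omega
      omega)
  obtain ⟨h1, h2⟩ := hS3 B hBc hBd
  rcases hA with hA | hA
  · exact h1 (fun x hx y hy hxy => hA x (hBA hx) y (hBA hy) hxy)
  · exact h2 (fun x hx y hy hxy => hA x (hBA hx) y (hBA hy) hxy)

/-- torsion in powers of cyclic groups. -/
lemma torsion_card (L n c : ℕ) [NeZero L] (hc : 1 ≤ c) :
    (univ.filter (fun x : Fin n → ZMod L => c • x = 0)).card ≤ c ^ n := by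
  classical
  have h1 : (univ.filter (fun x : Fin n → ZMod L => c • x = 0)) =
      Fintype.piFinset (fun _ : Fin n => univ.filter (fun y : ZMod L => c • y = 0)) := by
    ext x
    simp only [mem_filter, mem_univ, true_and, Fintype.mem_piFinset]
    constructor
    · intro h i
      have := congrFun h i
      simpa using this
    · intro h
      funext i
      simpa using h i
  rw [h1, Fintype.card_piFinset]
  have h2 : (univ.filter (fun y : ZMod L => c • y = 0)).card ≤ c :=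
    IsAddCyclic.card_nsmul_eq_zero_le hc
  rw [prod_const, card_univ, Fintype.card_fin]
  exact Nat.pow_le_pow_left h2 n

/-- Large powers. -/
theorem main_large (L n : ℕ) (hn : 1000 ≤ n) (hL : 2 ^ 2 ^ n ≤ L) :
    ∃ S : Set (Fin n → ZMod L), (∀ x ∈ S, -x ∈ S) ∧ (0 : Fin n → ZMod L) ∉ S ∧
      ∀ A : Finset (Fin n → ZMod L),
      ((∀ x ∈ A, ∀ y ∈ A, x ≠ y → y - x ∈ S) ∨ (∀ x ∈ A, ∀ y ∈ A, x ≠ y → y - x ∉ S)) →
      A.card < 2 ^ 73 * (Nat.log 2 (Nat.card (Fin n → ZMod L)) + 1) := by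
  classical
  have hLpos : 0 < L := lt_of_lt_of_le (by positivity) hL
  have : NeZero L := ⟨hLpos.ne'⟩
  have hcard : Nat.card (Fin n → ZMod L) = L ^ n := by
    rw [Nat.card_eq_fintype_card, Fintype.card_fun, ZMod.card, Fintype.card_fin]
  set N := Nat.card (Fin n → ZMod L) with hN
  set μ := Nat.log 2 N + 1 with hμdef
  have hNlt : N < 2 ^ μ := Nat.lt_pow_succ_log_self (by norm_num) N
  have hNge : 2 ^ 2 ^ n ≤ N := by
    rw [hcard]
    exact hL.trans (Nat.le_self_pow (by omega) L)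
  have hμge : 2 ^ n ≤ μ := by
    have h1 : 2 ^ n ≤ Nat.log 2 N := by
      have h2 := Nat.log_mono_right (b := 2) hNge
      rwa [Nat.log_pow (by norm_num)] at h2
    omega
  have hex : ∃ j : ℕ, 4096 * μ ≤ (2 ^ j) ^ 50 := by
    refine ⟨4096 * μ, ?_⟩
    calc 4096 * μ ≤ 2 ^ (4096 * μ) := Nat.lt_two_pow_self.le
      _ ≤ (2 ^ (4096 * μ)) ^ 50 := Nat.le_self_pow (by norm_num) _
  set j := Nat.find hex with hj
  have hj1 : 4096 * μ ≤ (2 ^ j) ^ 50 := Nat.find_spec hex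
  have hn50 : n ≤ 50 * j := by
    have h1 : 2 ^ n ≤ 2 ^ (50 * j) := by
      calc 2 ^ n ≤ μ := hμge
        _ ≤ 4096 * μ := by omega
        _ ≤ (2 ^ j) ^ 50 := hj1
        _ = 2 ^ (50 * j) := by rw [← pow_mul, mul_comm]
    exact (Nat.pow_le_pow_iff_right (by norm_num)).mp h1
  have hj16 : 16 ≤ j := by omega
  have hjq := aux_pow j hj16
  have hj2 : (2 ^ j) ^ 50 < 2 ^ 62 * μ := by
    have h1 := Nat.find_min hex (m := j - 1) (by omega)
    push Not at h1
    have h2 : 2 ^ j = 2 * 2 ^ (j - 1) := by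
      rw [← pow_succ']
      congr 1
      omega
    calc (2 ^ j) ^ 50 = 2 ^ 50 * (2 ^ (j - 1)) ^ 50 := by rw [h2, mul_pow]
      _ < 2 ^ 50 * (4096 * μ) := Nat.mul_lt_mul_of_pos_left h1 (by norm_num)
      _ = 2 ^ 62 * μ := by ring
  obtain ⟨S, hS1, hS2, hS3⟩ := main_general (Fin n → ZMod L) (2 ^ j) j n μ rfl hj16
    (by omega) (fun c hc => torsion_card L n c hc)
    (by
      have : Fintype.card (Fin n → ZMod L) = N := by rw [hN, Nat.card_eq_fintype_card]
      omega)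
    hj1
  refine ⟨S, hS1, hS2, ?_⟩
  intro A hA
  have h1 := hS3 A hA
  have e : 2 ^ 73 * μ = 2048 * (2 ^ 62 * μ) := by ring
  rw [e]
  omega

end Helper7.Ramsey
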