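import Mathlib

/-!
Ruzsa's lower bound for `|A + B|` in terms of dimension (ordered vector spaces), and
consequences for difference sets.
-/

namespace Helper7.Ramsey

open Finset
open scoped Pointwise

section Ordered

variable {V : Type*} [AddCommGroup V] [Module ℚ V] [LinearOrder V]

/-- the span of the differences of `A` and of `B`. -/
noncomputable def dspan (A B : Finset V) : Submodule ℚ V :=
  Submodule.span ℚ ((A - A : Finset V) ∪ (B - B : Finset V) : Set V)

lemma sub_mem_dspan_left {A B : Finset V} {x y : V} (hx : x ∈ A) (hy : y ∈ A) :
    x - y ∈ dspan A B :=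
  Submodule.subset_span (Or.inl (by exact_mod_cast sub_mem_sub hx hy))

lemma sub_mem_dspan_right {A B : Finset V} {x y : V} (hx : x ∈ B) (hy : y ∈ B) :
    x - y ∈ dspan A B :=
  Submodule.subset_span (Or.inr (by exact_mod_cast sub_mem_sub hx hy))

lemma dspan_le {A B : Finset V} {H : Submodule ℚ V} (hA : ∀ x ∈ A, ∀ y ∈ A, x - y ∈ H)
    (hB : ∀ x ∈ B, ∀ y ∈ B, x - y ∈ H) : dspan A B ≤ H := by
  rw [dspan, Submodule.span_le]
  rintro z (hz | hz)
  · rw [mem_coe, mem_sub] at hz
    obtain ⟨x, hx, y, hy, rfl⟩ := hz
    exact hA x hx y hy
  · rw [mem_coe, mem_sub] at hz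
    obtain ⟨x, hx, y, hy, rfl⟩ := hz
    exact hB x hx y hy

instance dspan_finite (A B : Finset V) : Module.Finite ℚ (dspan A B) := by
  rw [dspan]
  apply Module.Finite.span_of_finite
  exact (finite_toSet _).union (finite_toSet _)

variable [IsOrderedAddMonoid V]

/-- The new sums at the top span everything. -/
lemma finrank_lt_card_new {A B : Finset V} {a b : V} (ha : a ∈ A) (hb : b ∈ B)
    (hamax : ∀ x ∈ A, x ≤ a) (hbmax : ∀ x ∈ B, x ≤ b) :
    Module.finrank ℚ (dspan A B) < ((A + B) \ (A.erase a + B.erase b)).card := by
  classical
  set N := (A + B) \ (A.erase a + B.erase b) with hN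
  have hab : a + b ∈ N := by
    rw [hN, mem_sdiff]
    refine ⟨add_mem_add ha hb, ?_⟩
    rw [mem_add]
    rintro ⟨x, hx, y, hy, hxy⟩
    rw [mem_erase] at hx hy
    have h1 : x < a := lt_of_le_of_ne (hamax x hx.2) hx.1
    have h2 : y < b := lt_of_le_of_ne (hbmax y hy.2) hy.1
    have := add_lt_add h1 h2
    rw [hxy] at this
    exact lt_irrefl _ this
  set F := (N.erase (a + b)).image (fun n => n - (a + b)) with hF
  set H := Submodule.span ℚ (F : Set V) with hH
  have hNH : ∀ n ∈ N, n - (a + b) ∈ H := by
    intro n hn
    by_cases h : n = a + b
    · rw [h, sub_self]; exact H.zero_mem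
    · apply Submodule.subset_span
      rw [mem_coe, hF, mem_image]
      exact ⟨n, mem_erase.mpr ⟨h, hn⟩, rfl⟩
  -- the set of bad elements
  have hall : ∀ z ∈ (A.image (fun x => x - a)) ∪ (B.image (fun y => y - b)), z ∈ H := by
    by_contra hcon
    push Not at hcon
    obtain ⟨z0, hz0, hz0H⟩ := hcon
    obtain ⟨z, hz, hzmax⟩ := exists_max_image
      (((A.image (fun x => x - a)) ∪ (B.image (fun y => y - b))).filter (fun z => z ∉ H)) id
      ⟨z0, mem_filter.mpr ⟨hz0, hz0H⟩⟩
    rw [mem_filter] at hz
    have hmax : ∀ w ∈ (A.image (fun x => x - a)) ∪ (B.image (fun y => y - b)), z < w →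
        w ∈ H := by
      intro w hw hzw
      by_contra hwH
      have := hzmax w (mem_filter.mpr ⟨hw, hwH⟩)
      simp only [id] at this
      exact absurd hzw (not_lt.mpr this)
    -- common conclusion
    have hfin : ∀ a1 ∈ A.erase a, ∀ b1 ∈ B.erase b, z = (a1 - a) + (b1 - b) → False := by
      intro a1 ha1 b1 hb1 heq
      rw [mem_erase] at ha1 hb1
      have h1 : a1 - a < 0 := sub_neg.mpr (lt_of_le_of_ne (hamax a1 ha1.2) ha1.1)
      have h2 : b1 - b < 0 := sub_neg.mpr (lt_of_le_of_ne (hbmax b1 hb1.2) hb1.1)
      apply hz.2
      rw [heq]
      apply H.add_mem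
      · apply hmax
        · exact mem_union_left _ (mem_image.mpr ⟨a1, ha1.2, rfl⟩)
        · rw [heq]; exact add_lt_of_neg_right _ h2
      · apply hmax
        · exact mem_union_right _ (mem_image.mpr ⟨b1, hb1.2, rfl⟩)
        · rw [heq]; exact add_lt_of_neg_left _ h1
    rcases mem_union.mp hz.1 with hzA | hzB
    · rw [mem_image] at hzA
      obtain ⟨x, hx, hxz⟩ := hzA
      by_cases hnew : x + b ∈ A.erase a + B.erase b
      · rw [mem_add] at hnew
        obtain ⟨a1, ha1, b1, hb1, h1⟩ := hnew
        apply hfin a1 ha1 b1 hb1
        rw [← hxz]
        have : a1 - a + (b1 - b) = (a1 + b1) - a - b := by abel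
        rw [this, h1]; abel
      · have h1 : x + b ∈ N := by
          rw [hN, mem_sdiff]
          exact ⟨add_mem_add hx hb, hnew⟩
        have h2 := hNH _ h1
        apply hz.2
        rw [← hxz]
        have : x - a = x + b - (a + b) := by abel
        rw [this]; exact h2
    · rw [mem_image] at hzB
      obtain ⟨y, hy, hyz⟩ := hzB
      by_cases hnew : a + y ∈ A.erase a + B.erase b
      · rw [mem_add] at hnew
        obtain ⟨a1, ha1, b1, hb1, h1⟩ := hnew
        apply hfin a1 ha1 b1 hb1
        rw [← hyz]
        have : a1 - a + (b1 - b) = (a1 + b1) - a - b := by abel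
        rw [this, h1]; abel
      · have h1 : a + y ∈ N := by
          rw [hN, mem_sdiff]
          exact ⟨add_mem_add ha hy, hnew⟩
        have h2 := hNH _ h1
        apply hz.2
        rw [← hyz]
        have : y - b = a + y - (a + b) := by abel
        rw [this]; exact h2
  have hle : dspan A B ≤ H := by
    apply dspan_le
    · intro x hx y hy
      have : x - y = (x - a) - (y - a) := by abel
      rw [this]
      exact H.sub_mem (hall _ (mem_union_left _ (mem_image.mpr ⟨x, hx, rfl⟩)))
        (hall _ (mem_union_left _ (mem_image.mpr ⟨y, hy, rfl⟩)))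
    · intro x hx y hy
      have : x - y = (x - b) - (y - b) := by abel
      rw [this]
      exact H.sub_mem (hall _ (mem_union_right _ (mem_image.mpr ⟨x, hx, rfl⟩)))
        (hall _ (mem_union_right _ (mem_image.mpr ⟨y, hy, rfl⟩)))
  have hfr : Module.finrank ℚ H ≤ F.card := finrank_span_finset_le_card F
  have : Module.Finite ℚ H := by
    rw [hH]
    exact Module.Finite.span_of_finite _ (finite_toSet _)
  have h1 : Module.finrank ℚ (dspan A B) ≤ Module.finrank ℚ H := Submodule.finrank_mono hle
  have h2 : F.card ≤ (N.erase (a + b)).card := card_image_le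
  have h3 : (N.erase (a + b)).card + 1 = N.card := card_erase_add_one hab
  omega

lemma finrank_span_singleton_le' (u : V) : Module.finrank ℚ (Submodule.span ℚ {u}) ≤ 1 := by
  have := finrank_span_finset_le_card (R := ℚ) ({u} : Finset V)
  rw [card_singleton, Set.finrank, coe_singleton] at this
  exact this

lemma finrank_sup_span_le (S : Submodule ℚ V) [Module.Finite ℚ S] (u : V) :
    Module.finrank ℚ (S ⊔ Submodule.span ℚ {u} : Submodule ℚ V) ≤ Module.finrank ℚ S + 1 := by
  have h1 := Submodule.finrank_add_le_finrank_add_finrank S (Submodule.span ℚ {u})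
  have h2 := finrank_span_singleton_le' u
  omega

/-- **Ruzsa's inequality** `|A + B| ≥ |A| + d |B| - d (d + 1) / 2`. -/
theorem ruzsa_ineq : ∀ (n : ℕ) (A B : Finset V), B.card = n → A.Nonempty → B.Nonempty →
    B.card ≤ A.card →
    2 * A.card + 2 * Module.finrank ℚ (dspan A B) * B.card ≤
      2 * (A + B).card + Module.finrank ℚ (dspan A B) * (Module.finrank ℚ (dspan A B) + 1) := by
  intro n
  induction n with
  | zero =>
    intro A B hn _ hB _
    exact absurd (card_eq_zero.mp hn) hB.ne_empty
  | succ n ih =>
    intro A B hn hA hB hBA
    set d := Module.finrank ℚ (dspan A B) with hd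
    rcases Nat.eq_zero_or_pos n with hn0 | hn0
    · -- `|B| = 1`
      have hB1 : B.card = 1 := by omega
      obtain ⟨b, rfl⟩ := card_eq_one.mp hB1
      have h1 : (A + {b}).card = A.card := card_add_singleton A b
      rw [h1, hB1]
      have h2 : d ≤ d * d := Nat.le_mul_self d
      have : d * (d + 1) = d * d + d := by ring
      omega
    · -- remove the maxima
      obtain ⟨a, ha, hamax⟩ := exists_max_image A id hA
      obtain ⟨b, hb, hbmax⟩ := exists_max_image B id hB
      simp only [id] at hamax hbmax
      set A' := A.erase a with hA'
      set B' := B.erase b with hB'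
      have hA'c : A'.card + 1 = A.card := card_erase_add_one ha
      have hB'c : B'.card + 1 = B.card := card_erase_add_one hb
      have hB'ne : B'.Nonempty := by rw [← card_pos]; omega
      have hA'ne : A'.Nonempty := by rw [← card_pos]; omega
      have hIH := ih A' B' (by omega) hA'ne hB'ne (by omega)
      set d' := Module.finrank ℚ (dspan A' B') with hd'
      set N := (A + B) \ (A' + B') with hN
      have hNc : N.card + (A' + B').card = (A + B).card :=
        card_sdiff_add_card_eq_card (add_subset_add (erase_subset _ _) (erase_subset _ _))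
      have hNd : d < N.card := finrank_lt_card_new ha hb hamax hbmax
      have habN : a + b ∈ N := by
        rw [hN, mem_sdiff]
        refine ⟨add_mem_add ha hb, ?_⟩
        rw [mem_add]
        rintro ⟨x, hx, y, hy, hxy⟩
        rw [hA', mem_erase] at hx
        rw [hB', mem_erase] at hy
        have h1 : x < a := lt_of_le_of_ne (hamax x hx.2) hx.1
        have h2 : y < b := lt_of_le_of_ne (hbmax y hy.2) hy.1
        have := add_lt_add h1 h2
        rw [hxy] at this
        exact lt_irrefl _ this
      obtain ⟨a', ha'⟩ := hA'ne
      obtain ⟨b', hb'⟩ := hB'ne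
      set S' := dspan A' B' with hS'
      have hmono : S' ≤ dspan A B := by
        apply dspan_le
        · intro x hx y hy
          exact sub_mem_dspan_left (mem_of_mem_erase hx) (mem_of_mem_erase hy)
        · intro x hx y hy
          exact sub_mem_dspan_right (mem_of_mem_erase hx) (mem_of_mem_erase hy)
      have hd'd : d' ≤ d := Submodule.finrank_mono hmono
      -- membership in A and B modulo S'
      have hAmem : ∀ x ∈ A', x - a' ∈ S' := fun x hx => sub_mem_dspan_left hx ha'
      have hBmem : ∀ x ∈ B', x - b' ∈ S' := fun x hx => sub_mem_dspan_right hx hb'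
      -- general containment
      have hcontain : ∀ H : Submodule ℚ V, S' ≤ H → a - a' ∈ H → b - b' ∈ H →
          dspan A B ≤ H := by
        intro H hH1 hH2 hH3
        have hAH : ∀ x ∈ A, x - a' ∈ H := by
          intro x hx
          by_cases hxa : x = a
          · rw [hxa]; exact hH2
          · exact hH1 (hAmem x (mem_erase.mpr ⟨hxa, hx⟩))
        have hBH : ∀ x ∈ B, x - b' ∈ H := by
          intro x hx
          by_cases hxb : x = b
          · rw [hxb]; exact hH3
          · exact hH1 (hBmem x (mem_erase.mpr ⟨hxb, hx⟩))
        apply dspan_le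
        · intro x hx y hy
          have : x - y = (x - a') - (y - a') := by abel
          rw [this]; exact H.sub_mem (hAH x hx) (hAH y hy)
        · intro x hx y hy
          have : x - y = (x - b') - (y - b') := by abel
          rw [this]; exact H.sub_mem (hBH x hx) (hBH y hy)
      -- `A + b ⊆ N` if `b - b' ∉ S'`
      have hI : b - b' ∉ S' → A.image (fun x => x + b) ⊆ N := by
        intro hbS z hz
        rw [mem_image] at hz
        obtain ⟨x, hx, rfl⟩ := hz
        by_cases hxa : x = a
        · rw [hxa]; exact habN
        · rw [hN, mem_sdiff]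
          refine ⟨add_mem_add hx hb, ?_⟩
          rw [mem_add]
          rintro ⟨x1, hx1, y1, hy1, h1⟩
          apply hbS
          have hxA' : x ∈ A' := mem_erase.mpr ⟨hxa, hx⟩
          have e : b - b' = (x1 - x) + (y1 - b') := by
            have : b = x1 + y1 - x := by rw [h1]; abel
            rw [this]; abel
          rw [e]
          exact S'.add_mem (sub_mem_dspan_left hx1 hxA') (hBmem y1 hy1)
      have hII : a - a' ∉ S' → B.image (fun y => a + y) ⊆ N := by
        intro haS z hz
        rw [mem_image] at hz
        obtain ⟨y, hy, rfl⟩ := hz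
        by_cases hyb : y = b
        · rw [hyb]; exact habN
        · rw [hN, mem_sdiff]
          refine ⟨add_mem_add ha hy, ?_⟩
          rw [mem_add]
          rintro ⟨x1, hx1, y1, hy1, h1⟩
          apply haS
          have hyB' : y ∈ B' := mem_erase.mpr ⟨hyb, hy⟩
          have e : a - a' = (x1 - a') + (y1 - y) := by
            have : a = x1 + y1 - y := by rw [h1]; abel
            rw [this]; abel
          rw [e]
          exact S'.add_mem (hAmem x1 hx1) (sub_mem_dspan_right hy1 hyB')
      -- three cases
      rcases Nat.lt_or_ge d (d' + 1) with hlt | hge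
      · -- d = d'
        have hdd : d = d' := by omega
        rw [← hdd] at hIH
        have e1 : 2 * d * B.card = 2 * d * B'.card + 2 * d := by
          rw [← hB'c]; ring
        omega
      rcases Nat.lt_or_ge d (d' + 2) with hlt | hge2
      · -- d = d' + 1
        have hdd : d = d' + 1 := by omega
        have hNB : B.card ≤ N.card := by
          by_cases hbS : b - b' ∈ S'
          · have haS : a - a' ∉ S' := by
              intro haS
              have := hcontain S' le_rfl haS hbS
              have := Submodule.finrank_mono this
              omega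
            have := card_le_card (hII haS)
            rwa [card_image_of_injective _ (add_right_injective a)] at this
          · have := card_le_card (hI hbS)
            rw [card_image_of_injective _ (add_left_injective b)] at this
            omega
        rw [hdd]
        have e1 : 2 * (d' + 1) * B.card = 2 * d' * B'.card + 2 * d' + 2 * B.card := by
          rw [← hB'c]; ring
        have e2 : (d' + 1) * (d' + 1 + 1) = d' * (d' + 1) + 2 * d' + 2 := by ring
        omega
      · -- d = d' + 2
        have hfr1 : ∀ u v : V, a - a' ∈ S' ⊔ Submodule.span ℚ {u} →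
            b - b' ∈ (S' ⊔ Submodule.span ℚ {u}) ⊔ Submodule.span ℚ {v} → d ≤ d' + 2 := by
          intro u v h1 h2
          have h3 := hcontain ((S' ⊔ Submodule.span ℚ {u}) ⊔ Submodule.span ℚ {v})
            (le_sup_of_le_left le_sup_left) (le_sup_left (α := Submodule ℚ V) h1) h2
          have h4 := Submodule.finrank_mono h3
          have h5 := finrank_sup_span_le (S' ⊔ Submodule.span ℚ {u}) v
          have h6 := finrank_sup_span_le S' u
          omega
        have hdd : d = d' + 2 := by
          have := hfr1 (a - a') (b - b')
            (le_sup_right (α := Submodule ℚ V) (Submodule.mem_span_singleton_self _))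
            (le_sup_right (α := Submodule ℚ V) (Submodule.mem_span_singleton_self _))
          omega
        have hfr2 : ∀ u : V, a - a' ∈ S' ⊔ Submodule.span ℚ {u} →
            b - b' ∈ (S' ⊔ Submodule.span ℚ {u}) → False := by
          intro u h1 h2
          have h3 := hcontain (S' ⊔ Submodule.span ℚ {u}) le_sup_left h1 h2
          have h4 := Submodule.finrank_mono h3
          have h6 := finrank_sup_span_le S' u
          omega
        have hbS : b - b' ∉ S' := by
          intro hbS
          exact hfr2 (a - a')
            (le_sup_right (α := Submodule ℚ V) (Submodule.mem_span_singleton_self _))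
            (le_sup_left (α := Submodule ℚ V) hbS)
        have haS : a - a' ∉ S' := by
          intro haS
          exact hfr2 (b - b') (le_sup_left (α := Submodule ℚ V) haS)
            (le_sup_right (α := Submodule ℚ V) (Submodule.mem_span_singleton_self _))
        have hsub : A.image (fun x => x + b) ∪ B'.image (fun y => a + y) ⊆ N := by
          apply union_subset (hI hbS)
          exact (image_subset_image (erase_subset _ _)).trans (hII haS)
        have hdisj : Disjoint (A.image (fun x => x + b)) (B'.image (fun y => a + y)) := by
          rw [disjoint_left]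
          intro z hz hz'
          rw [mem_image] at hz hz'
          obtain ⟨x, hx, rfl⟩ := hz
          obtain ⟨y, hy, hxy⟩ := hz'
          by_cases hxa : x = a
          · rw [hxa] at hxy
            have := add_left_cancel hxy
            rw [this, hB'] at hy
            exact (mem_erase.mp hy).1 rfl
          · have hxA' : x ∈ A' := mem_erase.mpr ⟨hxa, hx⟩
            apply hfr2 (b - b')
            · have e : a - a' = (x - a') + (-(y - b')) + (b - b') := by
                have : a = x + b - y := by rw [← hxy]; abel
                rw [this]; abel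
              rw [e]
              apply Submodule.add_mem
              · apply Submodule.add_mem
                · exact le_sup_left (α := Submodule ℚ V) (hAmem x hxA')
                · exact le_sup_left (α := Submodule ℚ V) (S'.neg_mem (hBmem y hy))
              · exact le_sup_right (α := Submodule ℚ V) (Submodule.mem_span_singleton_self _)
            · exact le_sup_right (α := Submodule ℚ V) (Submodule.mem_span_singleton_self _)
        have hc := card_le_card hsub
        rw [card_union_of_disjoint hdisj, card_image_of_injective _ (add_left_injective b),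
          card_image_of_injective _ (add_right_injective a)] at hc
        rw [hdd]
        have e1 : 2 * (d' + 2) * B.card = 2 * d' * B'.card + 2 * d' + 4 * B.card := by
          rw [← hB'c]; ring
        have e2 : (d' + 2) * (d' + 2 + 1) = d' * (d' + 1) + 4 * d' + 6 := by ring
        omega

/-- difference version -/
theorem sub_ineq_ordered (X : Finset V) (hX : X.Nonempty) :
    (Module.finrank ℚ (Submodule.span ℚ ((X - X : Finset V) : Set V)) + 2) * X.card ≤
      2 * (X - X).card := by
  set e := Module.finrank ℚ (Submodule.span ℚ ((X - X : Finset V) : Set V)) with he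
  have h1 := ruzsa_ineq (-X).card X (-X) rfl hX (by simpa using hX) (by simp)
  have h2 : dspan X (-X) = Submodule.span ℚ ((X - X : Finset V) : Set V) := by
    rw [dspan]
    congr 1
    have : (-X - -X : Finset V) = X - X := by
      ext z
      simp only [mem_sub, mem_neg]
      constructor
      · rintro ⟨_, ⟨x, hx, rfl⟩, _, ⟨y, hy, rfl⟩, rfl⟩
        exact ⟨y, hy, x, hx, by abel⟩
      · rintro ⟨x, hx, y, hy, rfl⟩
        exact ⟨-y, ⟨y, hy, rfl⟩, -x, ⟨x, hx, rfl⟩, by abel⟩
    rw [this, Set.union_self]
  rw [h2, ← he, ← sub_eq_add_neg, card_neg] at h1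
  -- `e + 1 ≤ |X|`
  have h3 : e + 1 ≤ X.card := by
    obtain ⟨x0, hx0⟩ := hX
    have h4 : Submodule.span ℚ ((X - X : Finset V) : Set V) ≤
        Submodule.span ℚ (((X.erase x0).image (fun x => x - x0) : Finset V) : Set V) := by
      rw [Submodule.span_le]
      have h5 : ∀ x ∈ X, x - x0 ∈
          Submodule.span ℚ (((X.erase x0).image (fun x => x - x0) : Finset V) : Set V) := by
        intro x hx
        by_cases h : x = x0
        · rw [h, sub_self]; exact Submodule.zero_mem _
        · apply Submodule.subset_span
          rw [mem_coe, mem_image]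
          exact ⟨x, mem_erase.mpr ⟨h, hx⟩, rfl⟩
      intro z hz
      rw [mem_coe, mem_sub] at hz
      obtain ⟨x, hx, y, hy, rfl⟩ := hz
      have : x - y = (x - x0) - (y - x0) := by abel
      rw [this]
      exact Submodule.sub_mem _ (h5 x hx) (h5 y hy)
    have hfin : Module.Finite ℚ
        (Submodule.span ℚ (((X.erase x0).image (fun x => x - x0) : Finset V) : Set V)) :=
      Module.Finite.span_of_finite _ (finite_toSet _)
    have h6 := Submodule.finrank_mono h4
    have h7 : Module.finrank ℚ
        (Submodule.span ℚ (((X.erase x0).image (fun x => x - x0) : Finset V) : Set V)) ≤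
        ((X.erase x0).image (fun x => x - x0)).card := finrank_span_finset_le_card _
    have h8 : ((X.erase x0).image (fun x => x - x0)).card ≤ (X.erase x0).card := card_image_le
    have h9 := card_erase_add_one hx0
    omega
  have h4 : e * (e + 1) ≤ e * X.card := by gcongr
  have e1 : (e + 2) * X.card = e * X.card + 2 * X.card := by ring
  have e2 : 2 * e * X.card = 2 * (e * X.card) := by ring
  omega

end Ordered

section General

variable {V : Type*} [AddCommGroup V] [Module ℚ V] [Module.Finite ℚ V] [DecidableEq V]

/-- a compatible linear order on a finite-dimensional rational vector space. -/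
@[reducible] noncomputable def lexOrder (V : Type*) [AddCommGroup V] [Module ℚ V]
    [Module.Finite ℚ V] : LinearOrder V :=
  LinearOrder.lift' (fun v : V => toLex ((Module.finBasis ℚ V).equivFun v))
    (by
      intro x y h
      exact (Module.finBasis ℚ V).equivFun.injective (toLex.injective h))

omit [DecidableEq V] in
lemma lexOrder_isOrdered : @IsOrderedAddMonoid V _ (lexOrder V).toPartialOrder.toPreorder := by
  let _ : LinearOrder V := lexOrder V
  refine { add_le_add_left := ?_ }
  intro a b hab c
  change toLex ((Module.finBasis ℚ V).equivFun (a + c)) ≤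
    toLex ((Module.finBasis ℚ V).equivFun (b + c))
  change toLex ((Module.finBasis ℚ V).equivFun a) ≤ toLex ((Module.finBasis ℚ V).equivFun b)
    at hab
  have e1 : ∀ x y : V, toLex ((Module.finBasis ℚ V).equivFun (x + y)) =
      toLex ((Module.finBasis ℚ V).equivFun x) + toLex ((Module.finBasis ℚ V).equivFun y) := by
    intro x y
    rw [map_add (Module.finBasis ℚ V).equivFun x y, toLex_add]
  rw [e1, e1]
  exact add_le_add hab le_rfl

lemma sub_ineq (X : Finset V) (hX : X.Nonempty) :
    (Module.finrank ℚ (Submodule.span ℚ ((X - X : Finset V) : Set V)) + 2) * X.card ≤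
      2 * (X - X).card := by
  rename_i inst
  let _ : LinearOrder V := lexOrder V
  have hord : IsOrderedAddMonoid V := lexOrder_isOrdered
  obtain rfl : inst = (fun a b => LinearOrder.toDecidableEq a b) := Subsingleton.elim _ _
  exact sub_ineq_ordered X hX

/-- `|U - X| ≥ (D / 2 + 1) |X|` for `X ⊆ U`, `D = dim U`. -/
theorem sub_ineq_subset (X U : Finset V) (hX : X.Nonempty) (hXU : X ⊆ U) :
    (Module.finrank ℚ (Submodule.span ℚ ((U - U : Finset V) : Set V)) + 2) * X.card ≤
      2 * (U - X).card := by
  classical
  obtain ⟨x0, hx0⟩ := hX
  set e := Module.finrank ℚ (Submodule.span ℚ ((X - X : Finset V) : Set V)) with he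
  -- main induction
  have key : ∀ Y : Finset V, (e + 2) * X.card +
      2 * Module.finrank ℚ (Submodule.span ℚ (((X ∪ Y) - (X ∪ Y) : Finset V) : Set V)) * X.card
        ≤ 2 * ((X ∪ Y) - X).card + 2 * e * X.card := by
    intro Y
    induction Y using Finset.induction_on with
    | empty =>
      rw [union_empty, ← he]
      have := sub_ineq X ⟨x0, hx0⟩
      rw [← he] at this
      omega
    | insert u Y hu ih =>
      have hmono : (X ∪ Y) ⊆ X ∪ insert u Y := union_subset_union (Subset.refl _) (subset_insert _ _)
      set P := Submodule.span ℚ (((X ∪ Y) - (X ∪ Y) : Finset V) : Set V) with hP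
      set Q := Submodule.span ℚ (((X ∪ insert u Y) - (X ∪ insert u Y) : Finset V) : Set V) with hQ
      have hx0' : x0 ∈ X ∪ Y := mem_union_left _ hx0
      have hQle : Q ≤ P ⊔ Submodule.span ℚ {u - x0} := by
        rw [hQ, Submodule.span_le]
        have h5 : ∀ x ∈ X ∪ insert u Y, x - x0 ∈ P ⊔ Submodule.span ℚ {u - x0} := by
          intro x hx
          rw [union_insert, mem_insert] at hx
          rcases hx with rfl | hx
          · exact le_sup_right (α := Submodule ℚ V) (Submodule.mem_span_singleton_self _)
          · apply le_sup_left (α := Submodule ℚ V)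
            apply Submodule.subset_span
            rw [mem_coe]
            exact sub_mem_sub hx hx0'
        intro z hz
        rw [mem_coe, mem_sub] at hz
        obtain ⟨x, hx, y, hy, rfl⟩ := hz
        have : x - y = (x - x0) - (y - x0) := by abel
        rw [this]
        exact Submodule.sub_mem _ (h5 x hx) (h5 y hy)
      by_cases huP : u - x0 ∈ P
      · have hQP : Q ≤ P := by
          refine hQle.trans ?_
          rw [sup_le_iff]
          refine ⟨le_rfl, ?_⟩
          rw [Submodule.span_le]
          simpa using huP
        have h1 := Submodule.finrank_mono hQP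
        have h2 : ((X ∪ Y) - X).card ≤ ((X ∪ insert u Y) - X).card :=
          card_le_card (sub_subset_sub hmono (Subset.refl _))
        have h3 : 2 * Module.finrank ℚ Q * X.card ≤ 2 * Module.finrank ℚ P * X.card := by gcongr
        omega
      · have h1 : Module.finrank ℚ Q ≤ Module.finrank ℚ P + 1 := by
          have h2 := Submodule.finrank_mono hQle
          have h3 := Submodule.finrank_add_le_finrank_add_finrank P
            (Submodule.span ℚ {u - x0})
          have h4 : Module.finrank ℚ (Submodule.span ℚ {u - x0}) ≤ 1 := by
            have := finrank_span_finset_le_card (R := ℚ) ({u - x0} : Finset V)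
            rw [card_singleton, Set.finrank, coe_singleton] at this
            exact this
          omega
        have hsub : ((X ∪ Y) - X) ∪ X.image (fun x => u - x) ⊆ (X ∪ insert u Y) - X := by
          apply union_subset (sub_subset_sub hmono (Subset.refl _))
          intro z hz
          rw [mem_image] at hz
          obtain ⟨x, hx, rfl⟩ := hz
          exact sub_mem_sub (mem_union_right _ (mem_insert_self _ _)) hx
        have hdisj : Disjoint ((X ∪ Y) - X) (X.image (fun x => u - x)) := by
          rw [disjoint_left]
          intro z hz hz'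
          rw [mem_image] at hz'
          obtain ⟨x, hx, rfl⟩ := hz'
          rw [mem_sub] at hz
          obtain ⟨v, hv, y, hy, hvy⟩ := hz
          apply huP
          have e1 : u - x0 = (v - y) + (x - x0) := by rw [hvy]; abel
          rw [e1]
          apply Submodule.add_mem
          · apply Submodule.subset_span
            rw [mem_coe]
            exact sub_mem_sub hv (mem_union_left _ hy)
          · apply Submodule.subset_span
            rw [mem_coe]
            exact sub_mem_sub (mem_union_left _ hx) hx0'
        have hc := card_le_card hsub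
        rw [card_union_of_disjoint hdisj, card_image_of_injective _ (sub_right_injective)] at hc
        have h3 : 2 * Module.finrank ℚ Q * X.card ≤ 2 * (Module.finrank ℚ P + 1) * X.card := by
          gcongr
        have e1 : 2 * (Module.finrank ℚ P + 1) * X.card =
          2 * Module.finrank ℚ P * X.card + 2 * X.card := by ring
        omega
  have h1 := key U
  rw [union_eq_right.mpr hXU] at h1
  set D := Module.finrank ℚ (Submodule.span ℚ ((U - U : Finset V) : Set V)) with hD
  have heD : e ≤ D := by
    apply Submodule.finrank_mono
    apply Submodule.span_mono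
    exact_mod_cast sub_subset_sub hXU hXU
  have h2 : e * X.card ≤ D * X.card := by gcongr
  have e1 : (e + 2) * X.card = e * X.card + 2 * X.card := by ring
  have e2 : (D + 2) * X.card = D * X.card + 2 * X.card := by ring
  have e3 : 2 * e * X.card = 2 * (e * X.card) := by ring
  have e4 : 2 * D * X.card = 2 * (D * X.card) := by ring
  omega

/-- Weighted version: if `φ` is a Freiman homomorphism from `A` to `V`. -/
theorem weighted_ineq {G : Type*} [AddCommGroup G] [DecidableEq G] (A : Finset G) (φ : G → V)
    (hφ : ∀ a ∈ A, ∀ b ∈ A, ∀ c ∈ A, ∀ d ∈ A, a - b = c - d → φ a - φ b = φ c - φ d) :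
    (Module.finrank ℚ (Submodule.span ℚ ((A.image φ - A.image φ : Finset V) : Set V)) + 2) *
      A.card ≤ 2 * (A - A).card := by
  classical
  set U := A.image φ with hU
  set D := Module.finrank ℚ (Submodule.span ℚ ((U - U : Finset V) : Set V)) with hD
  set fib : V → Finset G := fun v => A.filter (fun a => φ a = v) with hfib
  set X : ℕ → Finset V := fun h => U.filter (fun v => h < (fib v).card) with hX
  set Γ : V → Finset G := fun w => (A - A).filter
    (fun g => ∃ a ∈ A, ∃ b ∈ A, g = a - b ∧ φ a - φ b = w) with hΓ
  have hfibA : ∀ v, (fib v).card ≤ A.card := fun v => card_le_card (filter_subset _ _)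
  -- sum of `|X h|`
  have h1 : ∑ h ∈ range A.card, (X h).card = A.card := by
    have h2 : ∑ h ∈ range A.card, (X h).card = ∑ v ∈ U, (fib v).card := by
      simp only [hX, card_filter]
      rw [sum_comm]
      apply sum_congr rfl
      intro v _
      rw [← card_filter]
      have : (range A.card).filter (fun h => h < (fib v).card) = range (fib v).card := by
        ext h
        rw [mem_filter, mem_range, mem_range]
        have := hfibA v
        constructor
        · exact fun h => h.2
        · intro h; exact ⟨by omega, h⟩
      rw [this, card_range]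
    rw [h2]
    exact (card_eq_sum_card_image φ A).symm
  -- lower bound for `Γ w`
  have h3 : ∀ h ∈ range A.card, ∀ w ∈ U - X h, h < (Γ w).card := by
    intro h _ w hw
    rw [mem_sub] at hw
    obtain ⟨v, hv, u, hu, rfl⟩ := hw
    rw [hX, mem_filter] at hu
    rw [hU, mem_image] at hv
    obtain ⟨a, ha, rfl⟩ := hv
    refine lt_of_lt_of_le hu.2 ?_
    apply card_le_card_of_injOn (fun b => a - b)
    · intro b hb
      rw [hfib, coe_filter, Set.mem_ofPred_eq] at hb
      rw [hΓ, coe_filter, Set.mem_ofPred_eq]
      exact ⟨sub_mem_sub ha hb.1, a, ha, b, hb.1, rfl, by rw [hb.2]⟩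
    · intro b _ b' _ hbb
      exact sub_right_injective hbb
  -- `∑_w |Γ w| ≤ |A - A|`
  have h4 : ∑ w ∈ U - U, (Γ w).card ≤ (A - A).card := by
    rw [← card_biUnion]
    · apply card_le_card
      rw [biUnion_subset]
      intro w _
      exact filter_subset _ _
    · intro w _ w' _ hww'
      rw [Function.onFun, disjoint_left]
      intro g hg hg'
      rw [hΓ, mem_filter] at hg hg'
      obtain ⟨_, a, ha, b, hb, hab, hw⟩ := hg
      obtain ⟨_, c, hc, d, hd, hcd, hw'⟩ := hg'
      apply hww'
      rw [← hw, ← hw']
      exact hφ a ha b hb c hc d hd (hab.symm.trans hcd)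
  -- double counting
  have h5 : ∑ h ∈ range A.card, (U - X h).card ≤ ∑ w ∈ U - U, (Γ w).card := by
    have h6 : ∀ h ∈ range A.card, (U - X h).card =
        ∑ w ∈ U - U, if w ∈ U - X h then 1 else 0 := by
      intro h _
      rw [← card_filter]
      congr 1
      ext w
      rw [mem_filter]
      constructor
      · intro hw
        exact ⟨sub_subset_sub (Subset.refl _) (filter_subset _ _) hw, hw⟩
      · exact fun hw => hw.2
    rw [sum_congr rfl h6, sum_comm]
    apply sum_le_sum
    intro w _
    rw [← card_filter]
    calc ((range A.card).filter (fun h => w ∈ U - X h)).card ≤ (range (Γ w).card).card := by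
          apply card_le_card
          intro h hh
          rw [mem_filter] at hh
          rw [mem_range]
          exact h3 h hh.1 w hh.2
      _ = (Γ w).card := card_range _
  have h6 : (D + 2) * A.card ≤ 2 * ∑ h ∈ range A.card, (U - X h).card := by
    calc (D + 2) * A.card = (D + 2) * ∑ h ∈ range A.card, (X h).card := by rw [h1]
      _ = ∑ h ∈ range A.card, (D + 2) * (X h).card := by rw [mul_sum]
      _ ≤ ∑ h ∈ range A.card, 2 * (U - X h).card := by
        apply sum_le_sum
        intro h _
        rcases (X h).eq_empty_or_nonempty with he | hne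
        · rw [he]; simp
        · exact sub_ineq_subset (X h) U hne (filter_subset _ _)
      _ = 2 * ∑ h ∈ range A.card, (U - X h).card := by rw [mul_sum]
  omega

end General

end Helper7.Ramsey
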