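import Mathlib
import Pool.Agent.helper7.Ramsey.Basic

/-!
Sets with small difference set are generated by few elements under the partial
operation `(a, b, c) ↦ a + b - c`.
-/

namespace Helper7.Ramsey

open Finset
open scoped Pointwise

variable {G : Type*} [AddCommGroup G] [DecidableEq G]

/-- `B` is closed in `A` under `a + b - c`. -/
def ClosedIn (A B : Finset G) : Prop :=
  ∀ a ∈ B, ∀ b ∈ B, ∀ c ∈ B, a + b - c ∈ A → a + b - c ∈ B

open Classical in
/-- the closure of `T` in `A`. -/
noncomputable def cl (A T : Finset G) : Finset G :=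
  A.filter (fun x => ∀ B ⊆ A, T ⊆ B → ClosedIn A B → x ∈ B)

lemma mem_cl {A T : Finset G} {x : G} :
    x ∈ cl A T ↔ x ∈ A ∧ ∀ B ⊆ A, T ⊆ B → ClosedIn A B → x ∈ B := by
  classical
  rw [cl, mem_filter]

lemma cl_subset (A T : Finset G) : cl A T ⊆ A := fun _ hx => (mem_cl.mp hx).1

lemma subset_cl {A T : Finset G} (h : T ⊆ A) : T ⊆ cl A T := by
  intro x hx
  rw [mem_cl]
  exact ⟨h hx, fun B _ hTB _ => hTB hx⟩

lemma cl_minimal {A T B : Finset G} (hB : B ⊆ A) (hT : T ⊆ B) (hcl : ClosedIn A B) :
    cl A T ⊆ B := by
  intro x hx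
  rw [mem_cl] at hx
  exact hx.2 B hB hT hcl

lemma closedIn_cl (A T : Finset G) : ClosedIn A (cl A T) := by
  intro a ha b hb c hc h
  rw [mem_cl] at ha hb hc ⊢
  exact ⟨h, fun B hB hT hcl => hcl a (ha.2 B hB hT hcl) b (hb.2 B hB hT hcl) c
    (hc.2 B hB hT hcl) h⟩

lemma cl_mono {A T T' : Finset G} (h : T ⊆ T') : cl A T ⊆ cl A T' := by
  intro x hx
  rw [mem_cl] at hx ⊢
  exact ⟨hx.1, fun B hB hT hcl => hx.2 B hB (h.trans hT) hcl⟩

/-- closure in a larger set is larger. -/
lemma cl_mono_left {W A T : Finset G} (h : W ⊆ A) (hT : T ⊆ W) : cl W T ⊆ cl A T := by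
  have h1 : cl W T ⊆ (cl A T) ∩ W := by
    apply cl_minimal inter_subset_right
    · intro x hx
      exact mem_inter.mpr ⟨subset_cl (hT.trans h) hx, hT hx⟩
    · intro a ha b hb c hc hW
      rw [mem_inter] at ha hb hc ⊢
      exact ⟨closedIn_cl A T a ha.1 b hb.1 c hc.1 (h hW), hW⟩
  exact h1.trans inter_subset_left

/-- number of representations of `g` as a difference in `W`. -/
def rep (W : Finset G) (g : G) : ℕ := (W.filter (fun b => b + g ∈ W)).card

lemma rep_mono {W A : Finset G} (h : W ⊆ A) (g : G) : rep W g ≤ rep A g := by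
  apply card_le_card
  intro b hb
  rw [mem_filter] at hb ⊢
  exact ⟨h hb.1, h hb.2⟩

lemma rep_pos {W : Finset G} {g : G} (h : 0 < rep W g) : g ∈ W - W := by
  rw [rep, card_pos] at h
  obtain ⟨b, hb⟩ := h
  rw [mem_filter] at hb
  have : g = (b + g) - b := by abel
  rw [this]
  exact sub_mem_sub hb.2 hb.1

lemma sum_rep_le (B : Finset G) (Q : Finset G) : ∑ g ∈ Q, rep B g ≤ B.card * B.card := by
  have h1 : ∑ g ∈ Q, rep B g = ∑ b ∈ B, (Q.filter (fun g => b + g ∈ B)).card := by
    simp only [rep, card_filter]
    rw [sum_comm]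
  rw [h1]
  calc ∑ b ∈ B, (Q.filter (fun g => b + g ∈ B)).card ≤ ∑ b ∈ B, B.card := by
        apply sum_le_sum
        intro b _
        apply card_le_card_of_injOn (fun g => b + g)
        · intro g hg
          exact (mem_filter.mp hg).2
        · intro g _ g' _ h
          exact add_right_injective b h
    _ = B.card * B.card := by simp

/-- Selection of a large subset `W` in which every element has many popular differences. -/
lemma exists_regular_subset (A : Finset G) (K τ : ℕ) (hτ : 16 * K * τ ≤ A.card)
    (hK : (A - A).card ≤ K * A.card) :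
    ∃ W ⊆ A, 3 * A.card ≤ 4 * W.card ∧
      ∀ b ∈ W, 4 * (W.filter (fun t => rep W (t - b) ≤ τ)).card ≤ A.card := by
  classical
  -- the potential
  set Ψ : Finset G → ℕ := fun W => ∑ g ∈ A - A, min (rep W g) τ with hΨ
  obtain ⟨W, hW, hmin⟩ := exists_min_image A.powerset
    (fun W => (4 : ℤ) * (Ψ W : ℤ) - (A.card : ℤ) * (W.card : ℤ)) ⟨A, by simp⟩
  rw [mem_powerset] at hW
  refine ⟨W, hW, ?_, ?_⟩
  · have h1 := hmin A (by simp)
    have h2 : 16 * Ψ A ≤ A.card * A.card := by
      have : Ψ A ≤ (K * A.card) * τ := by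
        calc Ψ A ≤ ∑ g ∈ A - A, τ := sum_le_sum (fun g _ => min_le_right _ _)
          _ = (A - A).card * τ := by simp
          _ ≤ (K * A.card) * τ := by gcongr
      calc 16 * Ψ A ≤ 16 * ((K * A.card) * τ) := by gcongr
        _ = A.card * (16 * K * τ) := by ring
        _ ≤ A.card * A.card := by gcongr
    rcases Nat.eq_zero_or_pos A.card with h0 | h0
    · rw [h0]; simp
    have h3 : (16 : ℤ) * (Ψ A : ℤ) ≤ (A.card : ℤ) * (A.card : ℤ) := by exact_mod_cast h2
    have h4 : (0 : ℤ) ≤ (Ψ W : ℤ) := by positivity
    have h5 : (A.card : ℤ) * (3 * (A.card : ℤ)) ≤ (A.card : ℤ) * (4 * (W.card : ℤ)) := by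
      linarith
    have h6 : (0 : ℤ) < (A.card : ℤ) := by exact_mod_cast h0
    have := le_of_mul_le_mul_left h5 h6
    exact_mod_cast this
  · intro b hb
    have h1 := hmin (W.erase b) (by
      rw [mem_powerset]; exact (erase_subset _ _).trans hW)
    set Γ := (W.filter (fun t => rep W (t - b) ≤ τ)).image (fun t => t - b) with hΓ
    have hΓc : Γ.card = (W.filter (fun t => rep W (t - b) ≤ τ)).card :=
      card_image_of_injective _ sub_left_injective
    have hΓsub : Γ ⊆ A - A := by
      intro x hx
      rw [hΓ, mem_image] at hx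
      obtain ⟨t, ht, rfl⟩ := hx
      exact sub_mem_sub (hW (mem_filter.mp ht).1) (hW hb)
    have h2 : Ψ (W.erase b) + Γ.card ≤ Ψ W := by
      have h3 : Γ.card = ∑ g ∈ A - A, if g ∈ Γ then 1 else 0 := by
        rw [← card_filter]
        congr 1
        ext x
        rw [mem_filter]
        exact ⟨fun h => ⟨hΓsub h, h⟩, fun h => h.2⟩
      rw [h3, hΨ]
      simp only
      rw [← sum_add_distrib]
      apply sum_le_sum
      intro g _
      split_ifs with hg
      · rw [hΓ, mem_image] at hg
        obtain ⟨t, ht, rfl⟩ := hg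
        rw [mem_filter] at ht
        have h4 : rep (W.erase b) (t - b) < rep W (t - b) := by
          rw [rep, rep]
          apply card_lt_card
          rw [ssubset_iff_of_subset]
          · refine ⟨b, ?_, ?_⟩
            · rw [mem_filter]
              refine ⟨hb, ?_⟩
              have : b + (t - b) = t := by abel
              rw [this]; exact ht.1
            · rw [mem_filter]
              simp
          · intro x hx
            rw [mem_filter] at hx ⊢
            exact ⟨mem_of_mem_erase hx.1, mem_of_mem_erase hx.2⟩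
        have h5 := ht.2
        rw [min_eq_left (by omega), min_eq_left h5]
        omega
      · rw [add_zero]
        exact min_le_min_right _ (rep_mono (erase_subset _ _) g)
    have h3 : (W.erase b).card + 1 = W.card := card_erase_add_one hb
    rw [hΓc] at h2
    have h4 : (W.card : ℤ) = ((W.erase b).card : ℤ) + 1 := by exact_mod_cast h3.symm
    have h5 : (Ψ (W.erase b) : ℤ) + ((W.filter (fun t => rep W (t - b) ≤ τ)).card : ℤ) ≤
        (Ψ W : ℤ) := by exact_mod_cast h2
    rw [h4] at h1
    have h6 : 4 * ((W.filter (fun t => rep W (t - b) ≤ τ)).card : ℤ) ≤ (A.card : ℤ) := by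
      linarith
    exact_mod_cast h6

/-- popular differences inside `B`. -/
def popD (W : Finset G) (τ : ℕ) (B : Finset G) : Finset G :=
  (B - B).filter (fun g => τ < rep W g)

lemma popD_mono {W : Finset G} {τ : ℕ} {B B' : Finset G} (h : B ⊆ B') :
    popD W τ B ⊆ popD W τ B' := filter_subset_filter _ (sub_subset_sub h h)

/-- Packing step. -/
lemma packing_step {W : Finset G} {s τ : ℕ} (hs : 3 * s ≤ 4 * W.card)
    (hpop : ∀ b ∈ W, 4 * (W.filter (fun t => rep W (t - b) ≤ τ)).card ≤ s)
    (T : Finset G) (hT : T ⊆ W) (hTne : T.Nonempty) (hsmall : 4 * (cl W T).card ≤ W.card) :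
    ∃ t ∈ W, 3 * (popD W τ (cl W T)).card + (cl W T).card ≤
      3 * (popD W τ (cl W (insert t T))).card := by
  classical
  set B := cl W T with hB
  have hBW : B ⊆ W := cl_subset _ _
  have hTB : T ⊆ B := subset_cl hT
  have hBne : B.Nonempty := hTne.mono hTB
  have hBpos : 0 < B.card := card_pos.mpr hBne
  have hcard : (W \ B).card + B.card = W.card := card_sdiff_add_card_eq_card hBW
  have hWBne : (W \ B).Nonempty := by
    rw [← card_pos]; omega
  have key : ∃ t ∈ W \ B, B.card ≤ 3 * (B.filter (fun b => τ < rep W (t - b))).card := by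
    by_contra hcon
    push Not at hcon
    have h1 : ∑ t ∈ W \ B, 3 * (B.filter (fun b => τ < rep W (t - b))).card <
        ∑ t ∈ W \ B, B.card := sum_lt_sum_of_nonempty hWBne hcon
    have h2 : ∑ t ∈ W \ B, (B.filter (fun b => τ < rep W (t - b))).card =
        ∑ b ∈ B, ((W \ B).filter (fun t => τ < rep W (t - b))).card := by
      simp only [card_filter]
      rw [sum_comm]
    have h3 : ∀ b ∈ B, W.card ≤ 3 * ((W \ B).filter (fun t => τ < rep W (t - b))).card := by
      intro b hb
      have h4 := hpop b (hBW hb)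
      have h5 : (W.filter (fun t => rep W (t - b) ≤ τ)).card +
          (W.filter (fun t => ¬ (rep W (t - b) ≤ τ))).card = W.card :=
        card_filter_add_card_filter_not _
      have h6 : (W.filter (fun t => ¬ (rep W (t - b) ≤ τ))) ⊆
          B ∪ (W \ B).filter (fun t => τ < rep W (t - b)) := by
        intro t ht
        rw [mem_filter, not_le] at ht
        rw [mem_union]
        by_cases htB : t ∈ B
        · left; exact htB
        · right
          rw [mem_filter, mem_sdiff]
          exact ⟨⟨ht.1, htB⟩, ht.2⟩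
      have h7 := (card_le_card h6).trans (card_union_le _ _)
      omega
    have h4 : ∑ b ∈ B, W.card ≤
        ∑ b ∈ B, 3 * ((W \ B).filter (fun t => τ < rep W (t - b))).card := sum_le_sum h3
    rw [← mul_sum, h2, mul_sum] at h1
    simp only [sum_const, smul_eq_mul] at h1 h4
    have h5 : B.card * W.card < (W \ B).card * B.card := lt_of_le_of_lt h4 h1
    have h6 : (W \ B).card * B.card ≤ W.card * B.card := by
      gcongr
      exact sdiff_subset
    rw [mul_comm] at h5
    omega
  obtain ⟨t, ht, htc⟩ := key
  rw [mem_sdiff] at ht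
  refine ⟨t, ht.1, ?_⟩
  have hTt : insert t T ⊆ W := insert_subset ht.1 hT
  have hB' : B ⊆ cl W (insert t T) := cl_mono (subset_insert _ _)
  have htB' : t ∈ cl W (insert t T) := subset_cl hTt (mem_insert_self _ _)
  have hsub : popD W τ B ∪ (B.filter (fun b => τ < rep W (t - b))).image (fun b => t - b) ⊆
      popD W τ (cl W (insert t T)) := by
    apply union_subset (popD_mono hB')
    intro x hx
    rw [mem_image] at hx
    obtain ⟨b, hb, rfl⟩ := hx
    rw [mem_filter] at hb
    rw [popD, mem_filter]
    exact ⟨sub_mem_sub htB' (hB' hb.1), hb.2⟩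
  have hdisj : Disjoint (popD W τ B)
      ((B.filter (fun b => τ < rep W (t - b))).image (fun b => t - b)) := by
    rw [disjoint_right]
    intro x hx hx'
    rw [mem_image] at hx
    obtain ⟨b, hb, rfl⟩ := hx
    rw [mem_filter] at hb
    rw [popD, mem_filter, mem_sub] at hx'
    obtain ⟨⟨a, ha, c, hc, hac⟩, _⟩ := hx'
    apply ht.2
    have e : a + b - c = t := by
      have : a - c + b = t - b + b := by rw [hac]
      calc a + b - c = a - c + b := by abel
        _ = t - b + b := this
        _ = t := by abel
    have := closedIn_cl W T a ha b hb.1 c hc (by rw [e]; exact ht.1)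
    rw [e] at this
    exact this
  have hc := card_le_card hsub
  rw [card_union_of_disjoint hdisj, card_image_of_injective _ (sub_right_injective)] at hc
  omega

/-- Averaging step. -/
lemma averaging_step {W : Finset G} {s τ K : ℕ} (hWs : W.card ≤ s)
    (hτ : s ≤ 16 * K * (τ + 1))
    (T : Finset G) (hT : T ⊆ W) (hproper : (cl W T).card < W.card)
    (hβ : 32 * K * ((cl W T).card * (cl W T).card) ≤ (popD W τ (cl W T)).card * s) :
    ∃ t ∈ W, (popD W τ (cl W T)).card + 32 * K * (cl W T).card ≤
      32 * K * (cl W (insert t T)).card := by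
  classical
  set B := cl W T with hB
  set Q := popD W τ B with hQ
  have hBW : B ⊆ W := cl_subset _ _
  have hcard : (W \ B).card + B.card = W.card := card_sdiff_add_card_eq_card hBW
  have hWBne : (W \ B).Nonempty := by
    rw [← card_pos]; omega
  -- closedness: pairs with one end in `B` lie in `B`
  have hclosed : ∀ g ∈ Q, ∀ b ∈ B, b + g ∈ W → b + g ∈ B := by
    intro g hg b hb h
    rw [hQ, popD, mem_filter, mem_sub] at hg
    obtain ⟨⟨a, ha, c, hc, rfl⟩, _⟩ := hg
    have e : b + (a - c) = a + b - c := by abel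
    rw [e] at h ⊢
    exact closedIn_cl W T a ha b hb c hc h
  have hclosed' : ∀ g ∈ Q, ∀ b ∈ W, b + g ∈ B → b ∈ B := by
    intro g hg b hb h
    rw [hQ, popD, mem_filter, mem_sub] at hg
    obtain ⟨⟨a, ha, c, hc, rfl⟩, _⟩ := hg
    have e : (b + (a - c)) + c - a = b := by abel
    have := closedIn_cl W T _ h c hc a ha (by rw [e]; exact hb)
    rw [e] at this
    exact this
  have h1 : Q.card * (τ + 1) ≤ ∑ g ∈ Q, rep W g := by
    rw [← smul_eq_mul, ← sum_const]
    apply sum_le_sum
    intro g hg
    rw [hQ, popD, mem_filter] at hg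
    exact hg.2
  have h2 : ∀ g ∈ Q, rep W g ≤ rep B g + ((W \ B).filter (fun b => b + g ∈ W)).card := by
    intro g hg
    rw [rep, rep, ← card_union_of_disjoint]
    · apply card_le_card
      intro b hb
      rw [mem_filter] at hb
      rw [mem_union, mem_filter, mem_filter, mem_sdiff]
      by_cases hbB : b ∈ B
      · left; exact ⟨hbB, hclosed g hg b hbB hb.2⟩
      · right; exact ⟨⟨hb.1, hbB⟩, hb.2⟩
    · rw [disjoint_left]
      intro b hb hb'
      rw [mem_filter] at hb hb'
      exact (mem_sdiff.mp hb'.1).2 hb.1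
  have h3 : Q.card * (τ + 1) ≤ B.card * B.card +
      ∑ g ∈ Q, ((W \ B).filter (fun b => b + g ∈ W)).card := by
    calc Q.card * (τ + 1) ≤ ∑ g ∈ Q, rep W g := h1
      _ ≤ ∑ g ∈ Q, (rep B g + ((W \ B).filter (fun b => b + g ∈ W)).card) := sum_le_sum h2
      _ = ∑ g ∈ Q, rep B g + ∑ g ∈ Q, ((W \ B).filter (fun b => b + g ∈ W)).card :=
        sum_add_distrib
      _ ≤ _ := by
        gcongr
        exact sum_rep_le B Q
  have h4 : ∑ g ∈ Q, ((W \ B).filter (fun b => b + g ∈ W)).card =
      ∑ t ∈ W \ B, (Q.filter (fun g => t + g ∈ W)).card := by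
    simp only [card_filter]
    rw [sum_comm]
  have key : ∃ t ∈ W \ B, Q.card ≤ 32 * K * (Q.filter (fun g => t + g ∈ W)).card := by
    by_contra hcon
    push Not at hcon
    have h5 : ∑ t ∈ W \ B, 32 * K * (Q.filter (fun g => t + g ∈ W)).card <
        ∑ t ∈ W \ B, Q.card := sum_lt_sum_of_nonempty hWBne hcon
    rw [← mul_sum, ← h4] at h5
    simp only [sum_const, smul_eq_mul] at h5
    set R := ∑ g ∈ Q, ((W \ B).filter (fun b => b + g ∈ W)).card with hR
    have h6 : (W \ B).card * Q.card ≤ s * Q.card := by
      gcongr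
      exact (card_le_card sdiff_subset).trans hWs
    -- `32 K Q (τ+1) ≥ 2 s Q`
    have h7 : Q.card * s ≤ Q.card * (16 * K * (τ + 1)) := by gcongr
    have h8 : 32 * K * (Q.card * (τ + 1)) ≤ 32 * K * (B.card * B.card) + 32 * K * R := by
      rw [← mul_add]
      gcongr
    have e1 : 32 * K * (Q.card * (τ + 1)) = 2 * (Q.card * (16 * K * (τ + 1))) := by ring
    have e2 : s * Q.card = Q.card * s := by ring
    omega
  obtain ⟨t, ht, htc⟩ := key
  rw [mem_sdiff] at ht
  refine ⟨t, ht.1, ?_⟩
  have hTt : insert t T ⊆ W := insert_subset ht.1 hT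
  have hB' : B ⊆ cl W (insert t T) := cl_mono (subset_insert _ _)
  have htB' : t ∈ cl W (insert t T) := subset_cl hTt (mem_insert_self _ _)
  have hsub : B ∪ (Q.filter (fun g => t + g ∈ W)).image (fun g => t + g) ⊆
      cl W (insert t T) := by
    apply union_subset hB'
    intro x hx
    rw [mem_image] at hx
    obtain ⟨g, hg, rfl⟩ := hx
    rw [mem_filter] at hg
    have hg1 := hg.1
    rw [hQ, popD, mem_filter, mem_sub] at hg1
    obtain ⟨⟨a, ha, c, hc, hac⟩, _⟩ := hg1
    have e : t + g = t + a - c := by rw [← hac]; abel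
    rw [e]
    apply closedIn_cl W (insert t T) t htB' a (hB' ha) c (hB' hc)
    rw [← e]
    exact hg.2
  have hdisj : Disjoint B ((Q.filter (fun g => t + g ∈ W)).image (fun g => t + g)) := by
    rw [disjoint_right]
    intro x hx hx'
    rw [mem_image] at hx
    obtain ⟨g, hg, rfl⟩ := hx
    rw [mem_filter] at hg
    exact ht.2 (hclosed' g hg.1 t ht.1 hx')
  have hc := card_le_card hsub
  rw [card_union_of_disjoint hdisj, card_image_of_injective _ (add_right_injective t)] at hc
  calc Q.card + 32 * K * B.card ≤ 32 * K * (Q.filter (fun g => t + g ∈ W)).card +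
        32 * K * B.card := by gcongr
    _ = 32 * K * (B.card + (Q.filter (fun g => t + g ∈ W)).card) := by ring
    _ ≤ _ := by gcongr

/-- One round: a packing step followed by an averaging step. -/
lemma round_step {W : Finset G} {s τ K : ℕ} (hs : 3 * s ≤ 4 * W.card) (hWs : W.card ≤ s)
    (hτ : s ≤ 16 * K * (τ + 1))
    (hpop : ∀ b ∈ W, 4 * (W.filter (fun t => rep W (t - b) ≤ τ)).card ≤ s)
    (T : Finset G) (hT : T ⊆ W) (hTne : T.Nonempty) (hsmall : 4 * (cl W T).card ≤ W.card) :
    ∃ T' ⊆ W, T ⊆ T' ∧ T'.card ≤ T.card + 2 ∧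
      3 * (popD W τ (cl W T)).card + (cl W T).card ≤ 3 * (popD W τ (cl W T')).card ∧
      (W.card < 4 * (cl W T').card ∨
        (3 * (popD W τ (cl W T)).card + (cl W T).card) + 96 * K * (cl W T).card ≤
          96 * K * (cl W T').card ∨
        (3 * (popD W τ (cl W T)).card + (cl W T).card) * s <
          96 * K * ((cl W T').card * (cl W T').card)) := by
  obtain ⟨t1, ht1, h1⟩ := packing_step hs hpop T hT hTne hsmall
  have hT1 : insert t1 T ⊆ W := insert_subset ht1 hT
  have hc1 : (insert t1 T).card ≤ T.card + 1 := card_insert_le _ _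
  have hββ : (cl W T).card ≤ (cl W (insert t1 T)).card :=
    card_le_card (cl_mono (subset_insert _ _))
  by_cases hbig : W.card < 4 * (cl W (insert t1 T)).card
  · exact ⟨insert t1 T, hT1, subset_insert _ _, by omega, h1, Or.inl hbig⟩
  by_cases hβ : 32 * K * ((cl W (insert t1 T)).card * (cl W (insert t1 T)).card) ≤
      (popD W τ (cl W (insert t1 T))).card * s
  · have hne : 0 < (cl W (insert t1 T)).card :=
      card_pos.mpr ⟨t1, subset_cl hT1 (mem_insert_self _ _)⟩
    obtain ⟨t2, ht2, h2⟩ := averaging_step hWs hτ (insert t1 T) hT1 (by omega) hβ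
    refine ⟨insert t2 (insert t1 T), insert_subset ht2 hT1,
      (subset_insert _ _).trans (subset_insert _ _), ?_, ?_, Or.inr (Or.inl ?_)⟩
    · have := card_insert_le t2 (insert t1 T)
      omega
    · have := card_le_card (popD_mono (W := W) (τ := τ)
        (cl_mono (A := W) (subset_insert t2 (insert t1 T))))
      omega
    · have h3 : 96 * K * (cl W T).card ≤ 96 * K * (cl W (insert t1 T)).card := by gcongr
      have e1 : 96 * K * (cl W (insert t2 (insert t1 T))).card =
        3 * (32 * K * (cl W (insert t2 (insert t1 T))).card) := by ring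
      have e2 : 96 * K * (cl W (insert t1 T)).card =
        3 * (32 * K * (cl W (insert t1 T)).card) := by ring
      omega
  · push Not at hβ
    refine ⟨insert t1 T, hT1, subset_insert _ _, by omega, h1, Or.inr (Or.inr ?_)⟩
    have h4 : (3 * (popD W τ (cl W T)).card + (cl W T).card) * s ≤
        (3 * (popD W τ (cl W (insert t1 T))).card) * s := by gcongr
    have e1 : (3 * (popD W τ (cl W (insert t1 T))).card) * s =
      3 * ((popD W τ (cl W (insert t1 T))).card * s) := by ring
    have e2 : 96 * K * ((cl W (insert t1 T)).card * (cl W (insert t1 T)).card) =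
      3 * (32 * K * ((cl W (insert t1 T)).card * (cl W (insert t1 T)).card)) := by ring
    omega

/-- Phase 1 -/
lemma phase_one {W : Finset G} {s τ K : ℕ} (hs : 3 * s ≤ 4 * W.card) (hWs : W.card ≤ s)
    (hτ : s ≤ 16 * K * (τ + 1)) (hspos : 0 < s)
    (hpop : ∀ b ∈ W, 4 * (W.filter (fun t => rep W (t - b) ≤ τ)).card ≤ s)
    (h : ℕ) (hh : 96 * K ≤ h * h) (i : ℕ) :
    ∃ T ⊆ W, T.Nonempty ∧ T.card ≤ 2 * i + 1 ∧
      (W.card < 4 * (cl W T).card ∨ s ≤ 3 * (popD W τ (cl W T)).card + (cl W T).card ∨
        (2 * h + 1) ^ i * h ≤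
          (2 * h) ^ i * ((3 * (popD W τ (cl W T)).card + (cl W T).card) +
            h * (cl W T).card)) := by
  induction i with
  | zero =>
    have hW : W.Nonempty := by rw [← card_pos]; omega
    obtain ⟨a, ha⟩ := hW
    have hsub : ({a} : Finset G) ⊆ W := by simpa using ha
    refine ⟨{a}, hsub, by simp, by simp, Or.inr (Or.inr ?_)⟩
    have hpos : 1 ≤ (cl W {a}).card := card_pos.mpr ⟨a, subset_cl hsub (by simp)⟩
    have : h * 1 ≤ h * (cl W {a}).card := by gcongr
    simp only [pow_zero, one_mul]
    omega
  | succ i ih =>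
    obtain ⟨T, hTW, hTne, hTc, hcase⟩ := ih
    by_cases h1 : W.card < 4 * (cl W T).card
    · exact ⟨T, hTW, hTne, by omega, Or.inl h1⟩
    by_cases h2 : s ≤ 3 * (popD W τ (cl W T)).card + (cl W T).card
    · exact ⟨T, hTW, hTne, by omega, Or.inr (Or.inl h2)⟩
    have h3 := (hcase.resolve_left h1).resolve_left h2
    push Not at h1 h2
    obtain ⟨T', hT'W, hTT', hT'c, hM, hc⟩ := round_step hs hWs hτ hpop T hTW hTne h1
    refine ⟨T', hT'W, hTne.mono hTT', by omega, ?_⟩
    rcases hc with hc | hc | hc
    · exact Or.inl hc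
    all_goals
      right; right
      have hβ : (cl W T).card ≤ (cl W T').card := card_le_card (cl_mono hTT')
      set N := 3 * (popD W τ (cl W T)).card + (cl W T).card with hN
      set β := (cl W T).card
      set β' := (cl W T').card
      set M' := 3 * (popD W τ (cl W T')).card
      suffices hsuff : (2 * h + 1) * (N + h * β) ≤ 2 * h * (M' + β' + h * β') by
        calc (2 * h + 1) ^ (i + 1) * h = (2 * h + 1) * ((2 * h + 1) ^ i * h) := by ring
          _ ≤ (2 * h + 1) * ((2 * h) ^ i * (N + h * β)) := by gcongr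
          _ = (2 * h) ^ i * ((2 * h + 1) * (N + h * β)) := by ring
          _ ≤ (2 * h) ^ i * (2 * h * (M' + β' + h * β')) := by gcongr
          _ = (2 * h) ^ (i + 1) * (M' + β' + h * β') := by ring
    · -- case (a)
      have h4 : N + h * h * β ≤ h * h * β' := by
        obtain ⟨e, he⟩ := Nat.exists_eq_add_of_le hβ
        rw [he] at hc ⊢
        have h5 : N ≤ 96 * K * e := by
          have : 96 * K * (β + e) = 96 * K * β + 96 * K * e := by ring
          omega
        have h6 : 96 * K * e ≤ h * h * e := by gcongr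
        have : h * h * (β + e) = h * h * β + h * h * e := by ring
        omega
      have h7 : 2 * h * (M' + β' + h * β') = 2 * (h * M') + 2 * (h * β') + 2 * (h * h * β') := by
        ring
      have h8 : (2 * h + 1) * (N + h * β) = 2 * (h * N) + 2 * (h * h * β) + N + h * β := by ring
      have h9 : h * N ≤ h * M' := by gcongr
      have h10 : h * β ≤ h * β' := by gcongr
      omega
    · -- case (b)
      have h4 : N < h * β' := by
        by_contra hcon
        push Not at hcon
        have h5 : 96 * K * (β' * β') ≤ (h * β') * (h * β') := by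
          calc 96 * K * (β' * β') ≤ h * h * (β' * β') := by gcongr
            _ = _ := by ring
        have h6 : (h * β') * (h * β') ≤ N * N := by gcongr
        have h7 : N * N ≤ N * s := by gcongr
        omega
      have h7 : 2 * h * (M' + β' + h * β') = 2 * (h * M') + 2 * (h * β') + 2 * (h * h * β') := by
        ring
      have h8 : (2 * h + 1) * (N + h * β) = 2 * (h * N) + 2 * (h * h * β) + N + h * β := by ring
      have h9 : h * N ≤ h * M' := by gcongr
      have h10 : h * β ≤ h * β' := by gcongr
      have h11 : h * h * β ≤ h * h * β' := by gcongr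
      omega

/-- Phase 2 -/
lemma phase_two {W : Finset G} {s τ K : ℕ} (hs : 3 * s ≤ 4 * W.card) (hWs : W.card ≤ s)
    (hτ : s ≤ 16 * K * (τ + 1)) (hK : 1 ≤ K)
    (hpop : ∀ b ∈ W, 4 * (W.filter (fun t => rep W (t - b) ≤ τ)).card ≤ s)
    (c0 : ℕ) (h0 : ∃ T ⊆ W, T.Nonempty ∧ T.card ≤ c0 ∧
      (W.card < 4 * (cl W T).card ∨ s ≤ 3 * (popD W τ (cl W T)).card + (cl W T).card)) (i : ℕ) :
    ∃ T ⊆ W, T.Nonempty ∧ T.card ≤ c0 + 2 * i ∧
      (W.card < 4 * (cl W T).card ∨
        (s ≤ 3 * (popD W τ (cl W T)).card + (cl W T).card ∧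
          ∃ i1 i2 : ℕ, i1 + i2 = i ∧ s * i1 ≤ 96 * K * (cl W T).card ∧
          s * (i2 * i2) ≤ 864 * K * (3 * (popD W τ (cl W T)).card + (cl W T).card))) := by
  induction i with
  | zero =>
    obtain ⟨T, hTW, hTne, hTc, h⟩ := h0
    refine ⟨T, hTW, hTne, by omega, ?_⟩
    rcases h with h | h
    · exact Or.inl h
    · exact Or.inr ⟨h, 0, 0, rfl, by simp, by simp⟩
  | succ i ih =>
    obtain ⟨T, hTW, hTne, hTc, hcase⟩ := ih
    by_cases h1 : W.card < 4 * (cl W T).card
    · exact ⟨T, hTW, hTne, by omega, Or.inl h1⟩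
    obtain ⟨hN, i1, i2, hi, hi1, hi2⟩ := hcase.resolve_left h1
    push Not at h1
    obtain ⟨T', hT'W, hTT', hT'c, hM, hc⟩ := round_step hs hWs hτ hpop T hTW hTne h1
    refine ⟨T', hT'W, hTne.mono hTT', by omega, ?_⟩
    have hβ : (cl W T).card ≤ (cl W T').card := card_le_card (cl_mono hTT')
    rcases hc with hc | hc | hc
    · exact Or.inl hc
    · right
      set N := 3 * (popD W τ (cl W T)).card + (cl W T).card with hNdef
      set β := (cl W T).card
      set β' := (cl W T').card
      set M' := 3 * (popD W τ (cl W T')).card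
      refine ⟨by omega, i1 + 1, i2, by omega, ?_, ?_⟩
      · have : s * (i1 + 1) = s * i1 + s := by ring
        omega
      · calc s * (i2 * i2) ≤ 864 * K * N := hi2
          _ ≤ 864 * K * (M' + β') := by gcongr; omega
    · right
      set N := 3 * (popD W τ (cl W T)).card + (cl W T).card with hNdef
      set β := (cl W T).card
      set β' := (cl W T').card
      set M' := 3 * (popD W τ (cl W T')).card
      refine ⟨by omega, i1, i2 + 1, by omega, ?_, ?_⟩
      · calc s * i1 ≤ 96 * K * β := hi1
          _ ≤ 96 * K * β' := by gcongr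
      · -- `864 K β' ≥ s (2 i2 + 1)`
        have h2 : s * (2 * i2 + 1) ≤ 864 * K * β' := by
          rcases Nat.eq_zero_or_pos i2 with h0 | h0
          · subst h0
            by_contra hcon
            push Not at hcon
            have h3 : 864 * K * β' < s := by omega
            -- `(864 K β')^2 > (864^2/96) K N s ≥ s^2`
            have h4 : (864 * K * β') * (864 * K * β') ≤ s * s := by gcongr
            have h5 : 7776 * K * (N * s) < (864 * K * β') * (864 * K * β') := by
              have h6 : (864 * K * β') * (864 * K * β') = 7776 * K * (96 * K * (β' * β')) := by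
                ring
              rw [h6]
              have : 0 < 7776 * K := by omega
              exact Nat.mul_lt_mul_of_pos_left hc this
            have h6 : s * s ≤ N * s := by gcongr
            have h7 : 1 * (N * s) ≤ 7776 * K * (N * s) := by
              gcongr
              omega
            omega
          · by_contra hcon
            push Not at hcon
            have h3 : 864 * K * β' < 3 * (s * i2) := by
              have : s * (2 * i2 + 1) ≤ s * (3 * i2) := by gcongr; omega
              have e : s * (3 * i2) = 3 * (s * i2) := by ring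
              omega
            have h4 : (864 * K * β') * (864 * K * β') ≤ (3 * (s * i2)) * (3 * (s * i2)) := by
              gcongr
            have h5 : 7776 * K * (N * s) < (864 * K * β') * (864 * K * β') := by
              have h6 : (864 * K * β') * (864 * K * β') = 7776 * K * (96 * K * (β' * β')) := by
                ring
              rw [h6]
              have : 0 < 7776 * K := by omega
              exact Nat.mul_lt_mul_of_pos_left hc this
            have h6 : 9 * (s * (i2 * i2)) * s ≤ 9 * (864 * K * N) * s := by gcongr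
            have e1 : 9 * (864 * K * N) * s = 7776 * K * (N * s) := by ring
            have e2 : (3 * (s * i2)) * (3 * (s * i2)) = 9 * (s * (i2 * i2)) * s := by ring
            omega
        have e1 : s * ((i2 + 1) * (i2 + 1)) = s * (i2 * i2) + s * (2 * i2 + 1) := by ring
        have e2 : 864 * K * (N + β') = 864 * K * N + 864 * K * β' := by ring
        have h3 : 864 * K * (N + β') ≤ 864 * K * (M' + β') := by gcongr
        omega

/-- Final phase: adding generators to a closed set which is already large. -/
lemma phase_three {A : Finset G} {s K : ℕ} (hAs : A.card = s) (hspos : 0 < s) (hK : 1 ≤ K)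
    (hd : (A - A).card ≤ K * s) (c0 : ℕ)
    (h0 : ∃ T ⊆ A, T.card ≤ c0 ∧ 3 * s < 16 * (cl A T).card) :
    ∃ T ⊆ A, T.card ≤ c0 + 6 * K ∧ cl A T = A := by
  have key : ∀ i : ℕ, ∃ T ⊆ A, T.card ≤ c0 + i ∧ 3 * s < 16 * (cl A T).card ∧
      (cl A T = A ∨ 3 * s * i ≤ 16 * (cl A T - cl A T).card) := by
    intro i
    induction i with
    | zero =>
      obtain ⟨T, hTA, hTc, h⟩ := h0
      exact ⟨T, hTA, by omega, h, Or.inr (by simp)⟩
    | succ i ih =>
      obtain ⟨T, hTA, hTc, h3, h⟩ := ih
      by_cases heq : cl A T = A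
      · exact ⟨T, hTA, by omega, h3, Or.inl heq⟩
      have h4 := h.resolve_left heq
      have hss : cl A T ⊂ A := (cl_subset A T).ssubset_of_ne heq
      obtain ⟨t, htA, ht⟩ := exists_of_ssubset hss
      have hT' : insert t T ⊆ A := insert_subset htA hTA
      have hB' : cl A T ⊆ cl A (insert t T) := cl_mono (subset_insert _ _)
      have htB' : t ∈ cl A (insert t T) := subset_cl hT' (mem_insert_self _ _)
      refine ⟨insert t T, hT', ?_, ?_, Or.inr ?_⟩
      · have := card_insert_le t T
        omega
      · have := card_le_card hB'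
        omega
      · have hsub : (cl A T - cl A T) ∪ (cl A T).image (fun b => t - b) ⊆
            cl A (insert t T) - cl A (insert t T) := by
          apply union_subset (sub_subset_sub hB' hB')
          intro x hx
          rw [mem_image] at hx
          obtain ⟨b, hb, rfl⟩ := hx
          exact sub_mem_sub htB' (hB' hb)
        have hdisj : Disjoint (cl A T - cl A T) ((cl A T).image (fun b => t - b)) := by
          rw [disjoint_right]
          intro x hx hx'
          rw [mem_image] at hx
          obtain ⟨b, hb, rfl⟩ := hx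
          rw [mem_sub] at hx'
          obtain ⟨a, ha, c, hc, hac⟩ := hx'
          apply ht
          have e : a + b - c = t := by
            calc a + b - c = a - c + b := by abel
              _ = t - b + b := by rw [hac]
              _ = t := by abel
          have := closedIn_cl A T a ha b hb c hc (by rw [e]; exact htA)
          rw [e] at this
          exact this
        have hc := card_le_card hsub
        rw [card_union_of_disjoint hdisj, card_image_of_injective _ (sub_right_injective)] at hc
        have e1 : 3 * s * (i + 1) = 3 * s * i + 3 * s := by ring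
        omega
  obtain ⟨T, hTA, hTc, h3, h⟩ := key (6 * K)
  refine ⟨T, hTA, hTc, ?_⟩
  rcases h with h | h
  · exact h
  · exfalso
    have h5 : (cl A T - cl A T).card ≤ K * s :=
      (card_le_card (sub_subset_sub (cl_subset _ _) (cl_subset _ _))).trans hd
    have h6 : 3 * s * (6 * K) = 18 * (K * s) := by ring
    have h7 : 0 < K * s := by positivity
    omega

/-- A set `A` with `|A - A| ≤ K |A|` is generated by `180 K` elements, if `K` is at least
`(C log |A|)^2`. -/
theorem exists_generators {A : Finset G} {s K : ℕ} (hAs : A.card = s) (hspos : 0 < s)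
    (hK : 1 ≤ K) (hd : (A - A).card ≤ K * s) (h m : ℕ) (hpos : 1 ≤ h) (hh : 96 * K ≤ h * h)
    (hm : 2 * s < 2 ^ m) (hi0 : (2 * h + 1) * m ≤ K) :
    ∃ T ⊆ A, T.card ≤ 180 * K ∧ cl A T = A := by
  set τ := s / (16 * K) with hτdef
  have hτ1 : 16 * K * τ ≤ A.card := by
    rw [hAs]; exact Nat.mul_div_le _ _
  have hτ2 : s ≤ 16 * K * (τ + 1) := by
    have := Nat.lt_mul_div_succ s (by omega : 0 < 16 * K)
    exact this.le
  obtain ⟨W, hWA, hWc, hpop⟩ := exists_regular_subset A K τ hτ1 (by rw [hAs]; exact hd)
  rw [hAs] at hWc hpop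
  have hWs : W.card ≤ s := by rw [← hAs]; exact card_le_card hWA
  -- phase 1
  have hp1 := phase_one hWc hWs hτ2 hspos hpop h hh ((2 * h + 1) * m)
  have h1 : ∃ T ⊆ W, T.Nonempty ∧ T.card ≤ 2 * ((2 * h + 1) * m) + 1 ∧
      (W.card < 4 * (cl W T).card ∨ s ≤ 3 * (popD W τ (cl W T)).card + (cl W T).card) := by
    obtain ⟨T, hTW, hTne, hTc, hcase⟩ := hp1
    refine ⟨T, hTW, hTne, hTc, ?_⟩
    rcases hcase with hc | hc | hc
    · exact Or.inl hc
    · exact Or.inr hc
    · right
      by_contra hcon
      push Not at hcon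
      have h2 : 2 ^ m * (2 * h) ^ ((2 * h + 1) * m) ≤ (2 * h + 1) ^ ((2 * h + 1) * m) := by
        rw [pow_mul, pow_mul, ← mul_pow]
        apply Nat.pow_le_pow_left
        apply two_mul_pow_le
        · omega
        · omega
      have hβ : (cl W T).card ≤ s := (card_le_card (cl_subset _ _)).trans hWs
      have h3 : (2 * h) ^ ((2 * h + 1) * m) * ((3 * (popD W τ (cl W T)).card + (cl W T).card) +
            h * (cl W T).card) ≤ (2 * h) ^ ((2 * h + 1) * m) * (2 * s * h) := by
        gcongr
        have h4 : s ≤ s * h := Nat.le_mul_of_pos_right _ hpos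
        have h5 : h * (cl W T).card ≤ h * s := by gcongr
        have h6 : h * s = s * h := by ring
        have h7 : 2 * s * h = 2 * (s * h) := by ring
        omega
      have h4 : (2 ^ m * (2 * h) ^ ((2 * h + 1) * m)) * h ≤
          (2 * h + 1) ^ ((2 * h + 1) * m) * h := by gcongr
      have h5 : (2 * h) ^ ((2 * h + 1) * m) * (2 * s * h) <
          (2 ^ m * (2 * h) ^ ((2 * h + 1) * m)) * h := by
        have h6 : 0 < (2 * h) ^ ((2 * h + 1) * m) * h := by positivity
        calc (2 * h) ^ ((2 * h + 1) * m) * (2 * s * h)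
            = (2 * s) * ((2 * h) ^ ((2 * h + 1) * m) * h) := by ring
          _ < 2 ^ m * ((2 * h) ^ ((2 * h + 1) * m) * h) := Nat.mul_lt_mul_of_pos_right hm h6
          _ = _ := by ring
      omega
  -- phase 2
  obtain ⟨T, hTW, hTne, hTc, hcase⟩ := phase_two hWc hWs hτ2 hK hpop _ h1 (83 * K + 1)
  have h2 : W.card < 4 * (cl W T).card := by
    by_contra hcon
    obtain ⟨_, i1, i2, hi, hi1, hi2⟩ := hcase.resolve_left hcon
    push Not at hcon
    have h3 : i1 ≤ 24 * K := by
      by_contra hc
      push Not at hc
      have h4 : s * (24 * K + 1) ≤ s * i1 := by gcongr; omega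
      have h5 : 96 * K * (cl W T).card ≤ 24 * K * s := by
        calc 96 * K * (cl W T).card = 24 * K * (4 * (cl W T).card) := by ring
          _ ≤ 24 * K * W.card := by gcongr
          _ ≤ 24 * K * s := by gcongr
      have h6 : s * (24 * K + 1) = 24 * K * s + s := by ring
      omega
    have h4 : i2 < 59 * K := by
      by_contra hc
      push Not at hc
      have h5 : (popD W τ (cl W T)).card ≤ K * s := by
        refine (card_le_card ?_).trans hd
        exact (filter_subset _ _).trans (sub_subset_sub ((cl_subset _ _).trans hWA)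
          ((cl_subset _ _).trans hWA))
      have hβ : (cl W T).card ≤ s := (card_le_card (cl_subset _ _)).trans hWs
      have h6 : 864 * K * (3 * (popD W τ (cl W T)).card + (cl W T).card) ≤
          864 * K * (3 * (K * s) + K * s) := by
        gcongr
        calc (cl W T).card ≤ s := hβ
          _ = 1 * s := by ring
          _ ≤ K * s := by gcongr
      have h7 : s * ((59 * K) * (59 * K)) ≤ s * (i2 * i2) := by gcongr
      have e1 : 864 * K * (3 * (K * s) + K * s) = 3456 * (K * K * s) := by ring
      have e2 : s * ((59 * K) * (59 * K)) = 3481 * (K * K * s) := by ring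
      have h8 : 0 < K * K * s := by positivity
      omega
    omega
  -- phase 3
  have h3 : ∃ T ⊆ A, T.card ≤ 171 * K ∧ 3 * s < 16 * (cl A T).card := by
    refine ⟨T, hTW.trans hWA, ?_, ?_⟩
    · omega
    · have := card_le_card (cl_mono_left hWA hTW)
      omega
  obtain ⟨T', hT'A, hT'c, hT'⟩ := phase_three hAs hspos hK hd _ h3
  exact ⟨T', hT'A, by omega, hT'⟩

/-- families of sets obtained from `T` by adding elements of the form `a + b - c`. -/
def genFam (T : Finset G) : ℕ → Finset (Finset G)
  | 0 => {T}
  | (i + 1) => (genFam T i).biUnion (fun Y => (Y ×ˢ (Y ×ˢ Y)).image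
      (fun p => insert (p.1 + p.2.1 - p.2.2) Y))

lemma card_genFam_le (T : Finset G) (i : ℕ) :
    (∀ Y ∈ genFam T i, Y.card ≤ T.card + i) ∧
    (genFam T i).card ≤ ((T.card + i) ^ 3) ^ i := by
  induction i with
  | zero => simp [genFam]
  | succ i ih =>
    obtain ⟨ih1, ih2⟩ := ih
    constructor
    · intro Y hY
      rw [genFam, mem_biUnion] at hY
      obtain ⟨Z, hZ, hY⟩ := hY
      rw [mem_image] at hY
      obtain ⟨p, _, rfl⟩ := hY
      have := card_insert_le (p.1 + p.2.1 - p.2.2) Z
      have := ih1 Z hZ
      omega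
    · calc (genFam T (i + 1)).card ≤ (genFam T i).card * (T.card + i) ^ 3 := by
            rw [genFam]
            apply card_biUnion_le_card_mul
            intro Y hY
            refine card_image_le.trans ?_
            rw [card_product, card_product]
            calc Y.card * (Y.card * Y.card) = Y.card ^ 3 := by ring
              _ ≤ _ := Nat.pow_le_pow_left (ih1 Y hY) 3
        _ ≤ ((T.card + i) ^ 3) ^ i * (T.card + i) ^ 3 := by gcongr
        _ = ((T.card + i) ^ 3) ^ (i + 1) := by ring
        _ ≤ ((T.card + (i + 1)) ^ 3) ^ (i + 1) := by gcongr; omega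

lemma mem_genFam {A T : Finset G} (hT : T ⊆ A) (hcl : cl A T = A) (i : ℕ)
    (hi : T.card + i ≤ A.card) :
    ∃ Y ∈ genFam T i, T ⊆ Y ∧ Y ⊆ A ∧ Y.card = T.card + i := by
  induction i with
  | zero => exact ⟨T, by simp [genFam], Subset.refl _, hT, by simp⟩
  | succ i ih =>
    obtain ⟨Y, hY, hTY, hYA, hYc⟩ := ih (by omega)
    -- `Y` is not closed
    have hnot : ¬ ClosedIn A Y := by
      intro hc
      have h1 : A ⊆ Y := by
        rw [← hcl]
        exact cl_minimal hYA hTY hc
      have := card_le_card h1
      omega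
    rw [ClosedIn] at hnot
    push Not at hnot
    obtain ⟨a, ha, b, hb, c, hc, hA, hn⟩ := hnot
    refine ⟨insert (a + b - c) Y, ?_, ?_, ?_, ?_⟩
    · rw [genFam, mem_biUnion]
      refine ⟨Y, hY, ?_⟩
      rw [mem_image]
      exact ⟨(a, b, c), by simp [ha, hb, hc], rfl⟩
    · exact hTY.trans (subset_insert _ _)
    · exact insert_subset hA hYA
    · rw [card_insert_of_notMem hn]; omega

/-- Counting sets generated by few elements. -/
theorem card_generated_le [Fintype G] (s r : ℕ) (F : Finset (Finset G))
    (hF : ∀ A ∈ F, A.card = s ∧ ∃ T ⊆ A, T.card ≤ r ∧ cl A T = A) :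
    F.card ≤ (Fintype.card G + 1) ^ r * ((s + 1) * (s ^ 3) ^ s) := by
  have hsub : F ⊆ (smallSubsets (univ : Finset G) r).biUnion (fun T =>
      (range (s + 1)).biUnion (fun i => if T.card + i = s then genFam T i else ∅)) := by
    intro A hA
    obtain ⟨hAc, T, hTA, hTc, hcl⟩ := hF A hA
    rw [mem_biUnion]
    refine ⟨T, mem_smallSubsets.mpr ⟨subset_univ _, hTc⟩, ?_⟩
    rw [mem_biUnion]
    have hle : T.card ≤ A.card := card_le_card hTA
    refine ⟨s - T.card, mem_range.mpr (by omega), ?_⟩
    rw [if_pos (by omega)]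
    obtain ⟨Y, hY, _, hYA, hYc⟩ := mem_genFam hTA hcl (s - T.card) (by omega)
    have : Y = A := eq_of_subset_of_card_le hYA (by omega)
    rw [← this]; exact hY
  calc F.card ≤ _ := card_le_card hsub
    _ ≤ (smallSubsets (univ : Finset G) r).card * ((s + 1) * (s ^ 3) ^ s) := by
        apply card_biUnion_le_card_mul
        intro T _
        calc _ ≤ (range (s + 1)).card * ((s ^ 3) ^ s) := by
              apply card_biUnion_le_card_mul
              intro i hi
              split_ifs with h
              · refine (card_genFam_le T i).2.trans ?_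
                rw [h]
                rcases Nat.eq_zero_or_pos s with h0 | h0
                · subst h0
                  have : i = 0 := by omega
                  subst this
                  simp
                · apply Nat.pow_le_pow_right
                  · positivity
                  · omega
              · simp
          _ = _ := by simp
    _ ≤ _ := by
        gcongr
        refine (card_smallSubsets_le _ _).trans ?_
        simp

end Helper7.Ramsey
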