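import Pool.Agent.helper7.Ramsey.Basic
import Pool.Agent.helper7.Ramsey.Gen
import Pool.Agent.helper7.Ramsey.Freiman

/-!
Small doubling: dissociated base.
-/

namespace Helper7.Ramsey

open Finset
open scoped Pointwise

variable {G : Type*} [AddCommGroup G] [DecidableEq G] [Fintype G]

omit [Fintype G] in
lemma sum_mem_nsmul (A : Finset G) : ∀ (n : ℕ) (X : Finset G), X ⊆ A → X.card = n →
    ∑ x ∈ X, x ∈ n • A := by
  intro n
  induction n with
  | zero =>
    intro X _ hX
    rw [card_eq_zero] at hX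
    subst hX
    simp
  | succ n ih =>
    intro X hXA hXc
    have hne : X.Nonempty := by rw [← card_pos]; omega
    obtain ⟨x, hx⟩ := hne
    rw [← sum_erase_add X (fun x => x) hx, succ_nsmul]
    apply add_mem_add
    · apply ih _ ((erase_subset _ _).trans hXA)
      rw [card_erase_of_mem hx]; omega
    · exact hXA hx

omit [Fintype G] in
lemma card_powersetCard_le_nsmul (A T : Finset G) (hTA : T ⊆ A)
    (hT : AddDissociated (T : Set G)) (n : ℕ) :
    (T.powersetCard n).card ≤ (n • A).card := by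
  apply card_le_card_of_injOn (fun X => ∑ x ∈ X, x)
  · intro X hX
    rw [mem_coe, mem_powersetCard] at hX
    rw [mem_coe]
    exact sum_mem_nsmul A n X (hX.1.trans hTA) hX.2
  · intro X hX Y hY hXY
    rw [mem_coe, mem_powersetCard] at hX hY
    apply hT
    · exact_mod_cast hX.1
    · exact_mod_cast hY.1
    · exact hXY

omit [Fintype G] in
/-- every dissociated subset of a set of small doubling is small. -/
lemma card_dissociated_le (A : Finset G) (hA : A.Nonempty) (q K : ℕ) (hq : 32 ≤ q)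
    (hAc : A.card ≤ q ^ 50) (hK : K ≤ q ^ 2) (hd : (A - A).card ≤ K * A.card)
    (T : Finset G) (hTA : T ⊆ A) (hT : AddDissociated (T : Set G)) : T.card ≤ q ^ 5 := by
  by_contra hcon
  push Not at hcon
  have hApos : 0 < A.card := card_pos.mpr hA
  -- Pluennecke
  have h1 : (25 • A).card ≤ q ^ 100 := by
    have h2 := pluennecke_ruzsa_inequality_nsmul_sub hA A 25
    have h3 : ((A - A).card / A.card : ℚ≥0) ≤ (K : ℚ≥0) := by
      rw [div_le_iff₀ (by exact_mod_cast hApos)]
      exact_mod_cast hd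
    have h4 : ((25 • A).card : ℚ≥0) ≤ (K : ℚ≥0) ^ 25 * (A.card : ℚ≥0) := by
      refine h2.trans ?_
      gcongr
    have h5 : (25 • A).card ≤ K ^ 25 * A.card := by exact_mod_cast h4
    calc (25 • A).card ≤ K ^ 25 * A.card := h5
      _ ≤ (q ^ 2) ^ 25 * q ^ 50 := by gcongr
      _ = q ^ 100 := by ring
  -- distinct sums
  have h2 := card_powersetCard_le_nsmul A T hTA hT 25
  rw [card_powersetCard] at h2
  have h3 : (T.card + 1 - 25) ^ 25 ≤ Nat.factorial 25 * (T.card.choose 25) := by
    rw [← Nat.descFactorial_eq_factorial_mul_choose]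
    exact Nat.pow_sub_le_descFactorial _ _
  have hq5 : 32 ^ 5 ≤ q ^ 5 := Nat.pow_le_pow_left hq 5
  have h4 : q ^ 5 ≤ 2 * (T.card + 1 - 25) := by
    have : (46 : ℕ) ≤ 32 ^ 5 := by norm_num
    omega
  have h5 : q ^ 25 * q ^ 100 ≤ 2 ^ 25 * Nat.factorial 25 * q ^ 100 := by
    calc q ^ 25 * q ^ 100 = (q ^ 5) ^ 25 := by ring
      _ ≤ (2 * (T.card + 1 - 25)) ^ 25 := Nat.pow_le_pow_left h4 25
      _ = 2 ^ 25 * (T.card + 1 - 25) ^ 25 := by rw [mul_pow]
      _ ≤ 2 ^ 25 * (Nat.factorial 25 * (T.card.choose 25)) := by gcongr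
      _ ≤ 2 ^ 25 * (Nat.factorial 25 * q ^ 100) := by gcongr; exact h2.trans h1
      _ = _ := by ring
  have hqpos : 0 < q ^ 100 := by positivity
  have h6 : q ^ 25 ≤ 2 ^ 25 * Nat.factorial 25 := le_of_mul_le_mul_right h5 hqpos
  have h7 : 32 ^ 25 ≤ q ^ 25 := Nat.pow_le_pow_left hq 25
  have h8 : 2 ^ 25 * Nat.factorial 25 < 32 ^ 25 := by
    norm_num [Nat.factorial]
  omega

lemma exists_base (A : Finset G) (hA : A.Nonempty) (q K : ℕ) (hq : 32 ≤ q)
    (hAc : A.card ≤ q ^ 50) (hK : K ≤ q ^ 2) (hd : (A - A).card ≤ K * A.card) :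
    ∃ T ⊆ A, T.card ≤ q ^ 5 ∧ A ⊆ T.addSpan := by
  obtain ⟨T, hTA, hTc, hT⟩ := exists_subset_addSpan_card_le_of_forall_addDissociated
    (s := A) (d := q ^ 5) (fun T hTA hT => card_dissociated_le A hA q K hq hAc hK hd T hTA hT)
  exact ⟨T, hTA, hTc, hT⟩

lemma card_addSpan_le (T : Finset G) : T.addSpan.card ≤ 3 ^ T.card := by
  classical
  have hsub : T.addSpan ⊆ (Fintype.piFinset (fun _ : T => ({-1, 0, 1} : Finset ℤ))).image
      (fun ε => ∑ t : T, ε t • (t : G)) := by
    intro a ha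
    rw [mem_addSpan] at ha
    obtain ⟨ε, hε, hsum⟩ := ha
    rw [mem_image]
    refine ⟨fun t => ε t, ?_, ?_⟩
    · rw [Fintype.mem_piFinset]
      intro t
      simpa using hε t
    · rw [← hsum]
      exact sum_coe_sort T (fun t => ε t • t)
  calc T.addSpan.card ≤ _ := card_le_card hsub
    _ ≤ _ := card_image_le
    _ = 3 ^ T.card := by
      rw [Fintype.card_piFinset]
      simp

/-- Siegel's lemma (pigeonhole version). -/
lemma siegel {E B : Type*} [Fintype E] [Fintype B] [DecidableEq E] [DecidableEq B]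
    (M : E → B → ℤ) (hM : ∀ e b, |M e b| ≤ 4)
    (hcard : Fintype.card E < Fintype.card B) :
    ∃ y : B → ℤ, y ≠ 0 ∧ (∀ b, |y b| ≤ ((8 * Fintype.card B) ^ (Fintype.card E) : ℕ)) ∧
      ∀ e, ∑ b, M e b * y b = 0 := by
  set m := Fintype.card B with hm
  set m' := Fintype.card E with hm'
  set Y : ℕ := (8 * m) ^ m' with hY
  have hmpos : 1 ≤ m := by omega
  set S : Finset (B → ℤ) := Fintype.piFinset (fun _ : B => Icc (0 : ℤ) Y) with hS
  set Z : ℕ := 4 * m * Y with hZ
  set R : Finset (E → ℤ) := Fintype.piFinset (fun _ : E => Icc (-(Z : ℤ)) Z) with hR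
  have hScard : S.card = (Y + 1) ^ m := by
    rw [hS, Fintype.card_piFinset]
    simp [hm]
  have hRcard : R.card = (2 * Z + 1) ^ m' := by
    rw [hR, Fintype.card_piFinset]
    simp only [Int.card_Icc, prod_const, card_univ, ← hm']
    congr 1
    omega
  have hlt : R.card < S.card := by
    rw [hScard, hRcard]
    calc (2 * Z + 1) ^ m' ≤ (8 * m * (Y + 1)) ^ m' := by
          apply Nat.pow_le_pow_left
          rw [hZ]
          have : 8 * m * (Y + 1) = 2 * (4 * m * Y) + 8 * m := by ring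
          omega
      _ = Y * (Y + 1) ^ m' := by rw [mul_pow, hY]
      _ < (Y + 1) * (Y + 1) ^ m' := by
          apply Nat.mul_lt_mul_of_pos_right (by omega)
          positivity
      _ = (Y + 1) ^ (m' + 1) := by ring
      _ ≤ (Y + 1) ^ m := Nat.pow_le_pow_right (by omega) (by omega)
  have hmaps : ∀ y ∈ S, (fun e => ∑ b, M e b * y b) ∈ R := by
    intro y hy
    rw [hS, Fintype.mem_piFinset] at hy
    rw [hR, Fintype.mem_piFinset]
    intro e
    rw [mem_Icc, ← abs_le]
    calc |∑ b, M e b * y b| ≤ ∑ b, |M e b * y b| := abs_sum_le_sum_abs _ _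
      _ ≤ ∑ _b : B, 4 * (Y : ℤ) := by
          apply sum_le_sum
          intro b _
          rw [abs_mul]
          have h1 := hM e b
          have h2 := mem_Icc.mp (hy b)
          have h3 : |y b| ≤ Y := by rw [abs_le]; constructor <;> omega
          have h4 : (0 : ℤ) ≤ |y b| := abs_nonneg _
          have h5 : (0 : ℤ) ≤ |M e b| := abs_nonneg _
          nlinarith
      _ = (Z : ℤ) := by
          simp only [sum_const, card_univ, ← hm, hZ]
          push_cast
          ring
  obtain ⟨y1, hy1, y2, hy2, hne, heq⟩ := exists_ne_map_eq_of_card_lt_of_maps_to hlt hmaps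
  refine ⟨y1 - y2, sub_ne_zero.mpr hne, ?_, ?_⟩
  · intro b
    rw [hS, Fintype.mem_piFinset] at hy1 hy2
    have h1 := mem_Icc.mp (hy1 b)
    have h2 := mem_Icc.mp (hy2 b)
    rw [Pi.sub_apply, abs_le]
    constructor <;> omega
  · intro e
    have := congrFun heq e
    simp only [Pi.sub_apply, mul_sub, sum_sub_distrib]
    rw [this, sub_self]

end Helper7.Ramsey
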