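import Pool.Agent.helper7.Ramsey.Small1

/-!
Small doubling: a small subset of the dissociated base generates everything up to small
multiples.
-/

namespace Helper7.Ramsey

open Finset
open scoped Pointwise

variable {G : Type*} [AddCommGroup G] [DecidableEq G] [Fintype G]

/-- evaluation of an integer combination. -/
def ev (T : Finset G) (z : T → ℤ) : G := ∑ t : T, z t • (t : G)

omit [DecidableEq G] [Fintype G] in
lemma ev_add (T : Finset G) (z w : T → ℤ) : ev T (z + w) = ev T z + ev T w := by
  simp [ev, add_smul, sum_add_distrib]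

omit [DecidableEq G] [Fintype G] in
lemma ev_sub (T : Finset G) (z w : T → ℤ) : ev T (z - w) = ev T z - ev T w := by
  simp [ev, sub_smul, sum_sub_distrib]

omit [Fintype G] in
lemma ev_single (T : Finset G) (t : T) : ev T (Pi.single t 1) = t := by
  rw [ev, sum_eq_single t]
  · simp
  · intro s _ hs
    rw [Pi.single_eq_of_ne hs]
    simp
  · intro h
    exact absurd (mem_univ t) h

/-- cast an integer vector to a rational vector. -/
def castq {ι : Type*} (z : ι → ℤ) : ι → ℚ := fun t => (z t : ℚ)

lemma castq_sub {ι : Type*} (z w : ι → ℤ) : castq (z - w) = castq z - castq w := by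
  funext t; simp [castq]

lemma castq_single {ι : Type*} [DecidableEq ι] (t : ι) :
    castq (Pi.single t (1 : ℤ)) = Pi.single t (1 : ℚ) := by
  funext s
  by_cases h : s = t
  · subst h; simp [castq]
  · simp [castq, Pi.single_eq_of_ne h]

/-- the relations with coefficients at most `4`. -/
def RelZ (T : Finset G) : Set (T → ℤ) := {z | (∀ t, |z t| ≤ 4) ∧ ev T z = 0}

/-- the rational span of the small relations. -/
noncomputable def Lam (T : Finset G) : Submodule ℚ (T → ℚ) :=
  Submodule.span ℚ (castq '' RelZ T)

lemma span_single_top {ι : Type*} [Fintype ι] [DecidableEq ι] :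
    Submodule.span ℚ (Set.range (fun t : ι => (Pi.single t 1 : ι → ℚ))) = ⊤ := by
  rw [eq_top_iff]
  intro x _
  have hx : x = ∑ t, x t • (Pi.single t 1 : ι → ℚ) := by
    funext s
    simp [Finset.sum_apply, Pi.single_apply]
  rw [hx]
  apply Submodule.sum_mem
  intro t _
  apply Submodule.smul_mem
  exact Submodule.subset_span ⟨t, rfl⟩

lemma finrank_quot_le (A T : Finset G) (hA : A.Nonempty) (hTA : T ⊆ A) (hAT : A ⊆ T.addSpan)
    (K : ℕ) (hd : (A - A).card ≤ K * A.card) :
    Module.finrank ℚ ((T → ℚ) ⧸ Lam T) + 1 ≤ 2 * K := by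
  classical
  have heps : ∀ a : G, ∃ z : T → ℤ, a ∈ A → ((∀ t, |z t| ≤ 1) ∧ ev T z = a ∧
      ∀ h : a ∈ T, z = Pi.single ⟨a, h⟩ 1) := by
    intro a
    by_cases haA : a ∈ A
    · by_cases haT : a ∈ T
      · refine ⟨Pi.single ⟨a, haT⟩ 1, fun _ => ⟨?_, ev_single T ⟨a, haT⟩, fun h => rfl⟩⟩
        intro t
        by_cases h : t = ⟨a, haT⟩
        · rw [h]; simp
        · rw [Pi.single_eq_of_ne h]; simp
      · have h1 := hAT haA
        rw [mem_addSpan] at h1
        obtain ⟨ε, hε, hsum⟩ := h1
        refine ⟨fun t => ε t, fun _ => ⟨?_, ?_, fun h => absurd h haT⟩⟩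
        · intro t
          change |ε t| ≤ 1
          rcases hε t with h | h | h <;> rw [h] <;> simp
        · rw [ev, ← hsum]
          exact sum_coe_sort T (fun t => ε t • t)
    · exact ⟨0, fun h => absurd h haA⟩
  choose eps heps using heps
  set φ : G → (T → ℚ) ⧸ Lam T := fun a => (Lam T).mkQ (castq (eps a)) with hφ
  have hφF : ∀ a ∈ A, ∀ b ∈ A, ∀ c ∈ A, ∀ d ∈ A, a - b = c - d →
      φ a - φ b = φ c - φ d := by
    intro a ha b hb c hc d hd habcd
    obtain ⟨a1, a2, _⟩ := heps a ha
    obtain ⟨b1, b2, _⟩ := heps b hb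
    obtain ⟨c1, c2, _⟩ := heps c hc
    obtain ⟨d1, d2, _⟩ := heps d hd
    have h1 : ((eps a - eps b) - (eps c - eps d)) ∈ RelZ T := by
      constructor
      · intro t
        have ha := a1 t
        have hb := b1 t
        have hc := c1 t
        have hd := d1 t
        rw [abs_le] at ha hb hc hd ⊢
        simp only [Pi.sub_apply]
        constructor <;> omega
      · rw [ev_sub, ev_sub, ev_sub, a2, b2, c2, d2, habcd, sub_self]
    have h2 : castq ((eps a - eps b) - (eps c - eps d)) ∈ Lam T :=
      Submodule.subset_span ⟨_, h1, rfl⟩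
    rw [castq_sub, castq_sub, castq_sub] at h2
    have h3 : (Lam T).mkQ ((castq (eps a) - castq (eps b)) - (castq (eps c) - castq (eps d))) =
        0 := by
      rw [← LinearMap.mem_ker, Submodule.ker_mkQ]
      exact h2
    rw [map_sub, map_sub, map_sub] at h3
    exact sub_eq_zero.mp h3
  have hw := weighted_ineq A φ hφF
  set D := Module.finrank ℚ (Submodule.span ℚ ((A.image φ - A.image φ :
    Finset ((T → ℚ) ⧸ Lam T)) : Set ((T → ℚ) ⧸ Lam T))) with hD
  have hApos : 0 < A.card := card_pos.mpr hA
  have h1 : D + 2 ≤ 2 * K := by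
    have h2 : (D + 2) * A.card ≤ (2 * K) * A.card := by
      calc (D + 2) * A.card ≤ 2 * (A - A).card := hw
        _ ≤ 2 * (K * A.card) := by gcongr
        _ = (2 * K) * A.card := by ring
    exact le_of_mul_le_mul_right h2 hApos
  -- `finrank V ≤ D + 1`
  obtain ⟨a0, ha0⟩ := hA
  have htop : (Submodule.span ℚ ((A.image φ - A.image φ :
    Finset ((T → ℚ) ⧸ Lam T)) : Set ((T → ℚ) ⧸ Lam T))) ⊔ Submodule.span ℚ {φ a0} = ⊤ := by
    rw [eq_top_iff]
    have h2 : Submodule.map (Lam T).mkQ
        (Submodule.span ℚ (Set.range (fun t : T => (Pi.single t 1 : T → ℚ)))) = ⊤ := by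
      rw [span_single_top, Submodule.map_top, Submodule.range_mkQ]
    rw [← h2, Submodule.map_span, Submodule.span_le]
    rintro _ ⟨_, ⟨t, rfl⟩, rfl⟩
    have htA : (t : G) ∈ A := hTA t.2
    have h3 : φ t = (Lam T).mkQ (Pi.single t 1) := by
      rw [hφ]
      simp only
      rw [(heps t htA).2.2 t.2, castq_single]
    rw [← h3]
    have h4 : φ t = (φ t - φ a0) + φ a0 := by abel
    rw [h4]
    apply Submodule.add_mem
    · apply Submodule.mem_sup_left
      apply Submodule.subset_span
      rw [mem_coe]
      exact sub_mem_sub (mem_image_of_mem _ htA) (mem_image_of_mem _ ha0)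
    · exact Submodule.mem_sup_right (Submodule.mem_span_singleton_self _)
  have h5 := Submodule.finrank_add_le_finrank_add_finrank
    (Submodule.span ℚ ((A.image φ - A.image φ :
      Finset ((T → ℚ) ⧸ Lam T)) : Set ((T → ℚ) ⧸ Lam T))) (Submodule.span ℚ {φ a0})
  rw [htop, finrank_top] at h5
  have h6 : Module.finrank ℚ (Submodule.span ℚ {φ a0}) ≤ 1 := by
    have := finrank_span_finset_le_card (R := ℚ) ({φ a0} : Finset ((T → ℚ) ⧸ Lam T))
    rw [card_singleton, Set.finrank, coe_singleton] at this
    exact this
  omega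

theorem exists_small_basis (A T : Finset G) (hA : A.Nonempty) (hTA : T ⊆ A)
    (hAT : A ⊆ T.addSpan) (K : ℕ) (hd : (A - A).card ≤ K * A.card)
    (r : ℕ) (hr : 1 ≤ r) (hTr : T.card ≤ r) :
    ∃ T' ⊆ T, T'.card ≤ 2 * K ∧ ∀ t ∈ T, ∃ c : ℕ, 1 ≤ c ∧ c ≤ (8 * r) ^ r ∧
      ∃ p : G → ℤ, (∀ x, |p x| ≤ ((8 * r) ^ r : ℕ)) ∧ c • t = ∑ x ∈ T', p x • x := by
  classical
  have hfr := finrank_quot_le A T hA hTA hAT K hd
  set v : T → (T → ℚ) ⧸ Lam T := fun t => (Lam T).mkQ (Pi.single t 1) with hv
  obtain ⟨b, _, _, hspan, hind⟩ := exists_linearIndepOn_extension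
    (linearIndepOn_empty ℚ v) (Set.empty_subset Set.univ)
  -- cardinality of `b`
  have hbcard : (b.toFinset).card = Module.finrank ℚ ((T → ℚ) ⧸ Lam T) := by
    have h1 : Submodule.span ℚ (v '' b) = ⊤ := by
      rw [eq_top_iff]
      have h2 : Submodule.map (Lam T).mkQ
          (Submodule.span ℚ (Set.range (fun t : T => (Pi.single t 1 : T → ℚ)))) = ⊤ := by
        rw [span_single_top, Submodule.map_top, Submodule.range_mkQ]
      rw [← h2, Submodule.map_span, Submodule.span_le]
      rintro _ ⟨_, ⟨t, rfl⟩, rfl⟩
      exact hspan ⟨t, Set.mem_univ _, rfl⟩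
    have h3 : Module.finrank ℚ (Submodule.span ℚ (Set.range (fun x : b => v x))) =
        Fintype.card b := finrank_span_eq_card hind
    have h4 : Set.range (fun x : b => v x) = v '' b := by
      rw [Set.image_eq_range]
    rw [h4, h1, finrank_top] at h3
    rw [h3, Set.toFinset_card]
  -- basis of `Lam`
  obtain ⟨B, hBsub, hBspan, hBind⟩ := exists_linearIndependent ℚ (castq '' RelZ T)
  have hBfin : B.Finite := hBind.setFinite
  have : Fintype B := hBfin.fintype
  have hBcard : Fintype.card B = Module.finrank ℚ (Lam T) := by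
    have h3 : Module.finrank ℚ (Submodule.span ℚ (Set.range ((↑) : B → (T → ℚ)))) =
        Fintype.card B := finrank_span_eq_card hBind
    rw [Subtype.range_coe, hBspan] at h3
    exact h3.symm
  have hR : ∀ ρ : B, ∃ z : T → ℤ, z ∈ RelZ T ∧ castq z = ρ := fun ρ => hBsub ρ.2
  choose R hRrel hRcast using hR
  have htot : Module.finrank ℚ ((T → ℚ) ⧸ Lam T) + Module.finrank ℚ (Lam T) = T.card := by
    rw [Submodule.finrank_quotient_add_finrank]
    simp
  have hle1 : 1 ≤ (8 * r) ^ r := Nat.one_le_pow _ _ (by omega)
  refine ⟨(b.toFinset).image Subtype.val, ?_, ?_, ?_⟩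
  · intro x hx
    rw [mem_image] at hx
    obtain ⟨t, _, rfl⟩ := hx
    exact t.2
  · refine card_image_le.trans ?_
    omega
  intro t ht
  by_cases htb : (⟨t, ht⟩ : T) ∈ b
  · refine ⟨1, le_rfl, hle1, fun x => if x = t then 1 else 0, ?_, ?_⟩
    · intro x
      beta_reduce
      split_ifs
      · rw [abs_one]; exact_mod_cast hle1
      · rw [abs_zero]; positivity
    · rw [one_smul, sum_eq_single t]
      · simp
      · intro x _ hx
        simp [hx]
      · intro h
        exfalso
        apply h
        rw [mem_image]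
        exact ⟨⟨t, ht⟩, by simpa using htb, rfl⟩
  · -- use Siegel's lemma
    set t0 : T := ⟨t, ht⟩ with ht0
    set E := {s : T // s ∉ b ∧ s ≠ t0} with hE
    have hEcard : Fintype.card E + 1 = Fintype.card B := by
      have h1 : Fintype.card E = ((b.toFinset)ᶜ.erase t0).card := by
        apply Fintype.card_of_subtype
        intro s
        simp only [mem_erase, mem_compl, Set.mem_toFinset]
        tauto
      have h2 : t0 ∈ (b.toFinset)ᶜ := by
        rw [mem_compl, Set.mem_toFinset]
        exact htb
      have h3 := card_erase_add_one h2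
      have h4 : (b.toFinset).card + ((b.toFinset)ᶜ).card = Fintype.card T :=
        card_add_card_compl _
      rw [Fintype.card_coe] at h4
      omega
    obtain ⟨y, hy0, hyb, hyE⟩ := siegel (fun (e : E) (ρ : B) => R ρ e.1)
      (fun e ρ => (hRrel ρ).1 e.1) (by omega)
    set p : T → ℤ := fun s => ∑ ρ : B, R ρ s * y ρ with hp
    -- `p` is a relation
    have hpev : ev T p = 0 := by
      have h1 : ev T p = ∑ ρ : B, y ρ • ev T (R ρ) := by
        simp only [ev, hp, sum_smul, smul_sum]
        rw [sum_comm]
        apply sum_congr rfl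
        intro ρ _
        apply sum_congr rfl
        intro s _
        rw [mul_comm, mul_smul]
      rw [h1]
      apply sum_eq_zero
      intro ρ _
      rw [(hRrel ρ).2, smul_zero]
    have hpcast : castq p = ∑ ρ : B, (y ρ : ℚ) • (ρ : T → ℚ) := by
      funext s
      simp only [castq, hp, Finset.sum_apply, Pi.smul_apply, smul_eq_mul]
      push_cast
      apply sum_congr rfl
      intro ρ _
      have := congrFun (hRcast ρ) s
      simp only [castq] at this
      rw [this]; ring
    have hpne : castq p ≠ 0 := by
      intro h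
      rw [hpcast] at h
      have h1 := (Fintype.linearIndependent_iff.mp hBind) (fun ρ => (y ρ : ℚ)) h
      apply hy0
      funext ρ
      have := h1 ρ
      simpa using this
    have hpLam : castq p ∈ Lam T := by
      rw [hpcast]
      apply Submodule.sum_mem
      intro ρ _
      apply Submodule.smul_mem
      exact Submodule.subset_span (hBsub ρ.2)
    have hpE : ∀ s : T, s ∉ b → s ≠ t0 → p s = 0 := fun s h1 h2 => hyE ⟨s, h1, h2⟩
    have hpbound : ∀ s : T, |p s| ≤ ((8 * r) ^ r : ℕ) := by
      intro s
      have hmr : Fintype.card B ≤ r := by omega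
      calc |p s| ≤ ∑ ρ : B, |R ρ s * y ρ| := abs_sum_le_sum_abs _ _
        _ ≤ ∑ _ρ : B, 4 * (((8 * Fintype.card B) ^ (Fintype.card E) : ℕ) : ℤ) := by
            apply sum_le_sum
            intro ρ _
            rw [abs_mul]
            have h1 := (hRrel ρ).1 s
            have h2 := hyb ρ
            gcongr
        _ = ((4 * Fintype.card B * (8 * Fintype.card B) ^ (Fintype.card E) : ℕ) : ℤ) := by
            simp only [sum_const, card_univ]
            push_cast
            ring
        _ ≤ ((8 * r) ^ r : ℕ) := by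
            have : 4 * Fintype.card B * (8 * Fintype.card B) ^ (Fintype.card E) ≤
                (8 * r) ^ r := by
              calc 4 * Fintype.card B * (8 * Fintype.card B) ^ (Fintype.card E)
                  ≤ (8 * r) * (8 * r) ^ (Fintype.card E) := by
                    gcongr
                    omega
                _ = (8 * r) ^ (Fintype.card E + 1) := by ring
                _ ≤ (8 * r) ^ r := Nat.pow_le_pow_right (by omega) (by omega)
            exact_mod_cast this
    have hpt0 : p t0 ≠ 0 := by
      intro h0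
      have h1 : ∑ s ∈ b.toFinset, (p s : ℚ) • v s = 0 := by
        have h2 : (Lam T).mkQ (castq p) = 0 := by
          rw [← LinearMap.mem_ker, Submodule.ker_mkQ]
          exact hpLam
        have h3 : castq p = ∑ s ∈ b.toFinset, (p s : ℚ) • (Pi.single s 1 : T → ℚ) := by
          funext x
          simp only [castq, Finset.sum_apply, Pi.smul_apply, smul_eq_mul, Pi.single_apply,
            mul_ite, mul_one, mul_zero]
          rw [sum_ite_eq]
          split_ifs with hxb
          · rfl
          · rw [Set.mem_toFinset] at hxb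
            by_cases hx : x = t0
            · rw [hx, h0]; simp
            · rw [hpE x hxb hx]; simp
        rw [h3, map_sum] at h2
        rw [← h2]
        apply sum_congr rfl
        intro s _
        rw [hv, map_smul]
      have h2 : ∀ s ∈ b, p s = 0 := by
        have h3 := linearIndepOn_iff'.mp hind b.toFinset (fun s => (p s : ℚ)) (by simp) h1
        intro s hs
        have := h3 s (by simpa using hs)
        exact_mod_cast this
      apply hpne
      funext s
      simp only [castq, Pi.zero_apply]
      by_cases hsb : s ∈ b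
      · rw [h2 s hsb]; simp
      · by_cases hs : s = t0
        · rw [hs, h0]; simp
        · rw [hpE s hsb hs]; simp
    -- the relation `p t0 • t + ∑_{s ∈ b} p s • s = 0`
    have hrel : p t0 • t + ∑ s ∈ b.toFinset, p s • (s : G) = 0 := by
      have h1 : ev T p = ∑ s ∈ insert t0 b.toFinset, p s • (s : G) := by
        rw [ev]
        symm
        apply sum_subset (subset_univ _)
        intro s _ hs
        rw [mem_insert, Set.mem_toFinset, not_or] at hs
        rw [hpE s hs.2 hs.1, zero_smul]
      rw [hpev, sum_insert (by simpa using htb)] at h1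
      exact h1.symm
    set σ : ℤ := -(p t0).sign with hσ
    refine ⟨(p t0).natAbs, Int.natAbs_pos.mpr hpt0, ?_,
      fun x => if h : x ∈ T then σ * p ⟨x, h⟩ else 0, ?_, ?_⟩
    · have := hpbound t0
      rw [← Int.natCast_natAbs] at this
      exact_mod_cast this
    · intro x
      beta_reduce
      split_ifs with h
      · rw [abs_mul]
        have h1 : |σ| ≤ 1 := by
          rw [hσ, abs_neg]
          rcases lt_trichotomy (p t0) 0 with h | h | h
          · rw [Int.sign_eq_neg_one_of_neg h]; simp
          · rw [h]; simp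
          · rw [Int.sign_eq_one_of_pos h]; simp
        calc |σ| * |p ⟨x, h⟩| ≤ 1 * |p ⟨x, h⟩| := by gcongr
          _ = |p ⟨x, h⟩| := one_mul _
          _ ≤ _ := hpbound _
      · rw [abs_zero]; positivity
    · have h1 : ∑ x ∈ (b.toFinset).image Subtype.val,
          (if h : x ∈ T then σ * p ⟨x, h⟩ else 0) • x =
          ∑ s ∈ b.toFinset, σ • (p s • (s : G)) := by
        rw [sum_image (fun x _ y _ h => Subtype.ext h)]
        apply sum_congr rfl
        intro s _
        rw [dif_pos s.2, mul_smul]
      rw [h1, ← smul_sum]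
      have h2 : ∑ s ∈ b.toFinset, p s • (s : G) = -(p t0 • t) := by
        rw [eq_neg_iff_add_eq_zero, add_comm]
        exact hrel
      rw [h2, smul_neg, ← mul_smul, ← neg_smul, hσ]
      have h3 : -(-(p t0).sign * p t0) = ((p t0).natAbs : ℤ) := by
        rw [neg_mul, neg_neg]
        exact Int.sign_mul_self_eq_natAbs _
      rw [h3, natCast_zsmul]

end Helper7.Ramsey
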