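import Pool.Agent.helper7.Ramsey.Small2

/-!
Small doubling: counting.
-/

namespace Helper7.Ramsey

open Finset
open scoped Pointwise

variable {G : Type*} [AddCommGroup G] [DecidableEq G] [Fintype G]

open Classical in
/-- the set of `x` with `c x = ∑ p_t t` for small `c`, `p`. -/
noncomputable def Cl (Δ : ℕ) (T' : Finset G) : Finset G :=
  univ.filter (fun x => ∃ c : ℕ, 1 ≤ c ∧ c ≤ Δ ∧ ∃ p : G → ℤ, (∀ x, |p x| ≤ (Δ : ℤ)) ∧
    c • x = ∑ x ∈ T', p x • x)

omit [DecidableEq G] in
lemma mem_Cl {Δ : ℕ} {T' : Finset G} {x : G} :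
    x ∈ Cl Δ T' ↔ ∃ c : ℕ, 1 ≤ c ∧ c ≤ Δ ∧ ∃ p : G → ℤ, (∀ x, |p x| ≤ (Δ : ℤ)) ∧
    c • x = ∑ x ∈ T', p x • x := by
  classical
  rw [Cl, mem_filter]
  simp

lemma card_fiber_le (c : ℕ) (g : G) :
    (univ.filter (fun x : G => c • x = g)).card ≤
      (univ.filter (fun x : G => c • x = 0)).card := by
  rcases (univ.filter (fun x : G => c • x = g)).eq_empty_or_nonempty with h | ⟨x0, hx0⟩
  · rw [h]; simp
  · apply card_le_card_of_injOn (fun x => x - x0)
    · intro x hx
      rw [mem_coe, mem_filter] at hx ⊢
      rw [mem_filter] at hx0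
      refine ⟨mem_univ _, ?_⟩
      rw [smul_sub, hx.2, hx0.2, sub_self]
    · intro x _ y _ h
      exact sub_left_injective h

lemma card_Cl_le (Δ k : ℕ) (T' : Finset G)
    (hk : ∀ c : ℕ, 1 ≤ c → (univ.filter (fun x : G => c • x = 0)).card ≤ c ^ k) :
    (Cl Δ T').card ≤ Δ * ((2 * Δ + 1) ^ T'.card * Δ ^ k) := by
  classical
  have hsub : Cl Δ T' ⊆ (Icc 1 Δ).biUnion (fun c =>
      (Fintype.piFinset (fun _ : T' => Icc (-(Δ : ℤ)) Δ)).biUnion (fun p =>
        univ.filter (fun x : G => c • x = ∑ t : T', p t • (t : G)))) := by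
    intro x hx
    rw [mem_Cl] at hx
    obtain ⟨c, hc1, hc2, p, hp, hsum⟩ := hx
    rw [mem_biUnion]
    refine ⟨c, mem_Icc.mpr ⟨hc1, hc2⟩, ?_⟩
    rw [mem_biUnion]
    refine ⟨fun t => p t, ?_, ?_⟩
    · rw [Fintype.mem_piFinset]
      intro t
      rw [mem_Icc, ← abs_le]
      exact hp t
    · rw [mem_filter]
      refine ⟨mem_univ _, ?_⟩
      rw [hsum]
      exact (sum_coe_sort T' (fun t => p t • t)).symm
  calc (Cl Δ T').card ≤ _ := card_le_card hsub
    _ ≤ (Icc 1 Δ).card * ((2 * Δ + 1) ^ T'.card * Δ ^ k) := by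
        apply card_biUnion_le_card_mul
        intro c hc
        rw [mem_Icc] at hc
        have h1 : (Fintype.piFinset (fun _ : T' => Icc (-(Δ : ℤ)) Δ)).card =
            (2 * Δ + 1) ^ T'.card := by
          rw [Fintype.card_piFinset]
          simp only [Int.card_Icc, prod_const, card_univ, Fintype.card_coe]
          congr 1
          omega
        rw [← h1]
        apply card_biUnion_le_card_mul
        intro p _
        calc _ ≤ _ := card_fiber_le c _
          _ ≤ c ^ k := hk c hc.1
          _ ≤ Δ ^ k := Nat.pow_le_pow_left hc.2 k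
    _ = _ := by simp

omit [Fintype G] in
/-- some translate point `t` sees almost all of `A` through popular differences. -/
lemma exists_popular_center (A : Finset G) (hA : A.Nonempty) (K τ : ℕ)
    (hd : (A - A).card ≤ K * A.card) :
    ∃ t ∈ A, (A.filter (fun b => rep A (b - t) < τ)).card ≤ K * τ := by
  by_contra hcon
  push Not at hcon
  have h1 : ∑ t ∈ A, K * τ < ∑ t ∈ A, (A.filter (fun b => rep A (b - t) < τ)).card :=
    sum_lt_sum_of_nonempty hA hcon
  have h2 : ∑ t ∈ A, (A.filter (fun b => rep A (b - t) < τ)).card =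
      ((A ×ˢ A).filter (fun p => rep A (p.2 - p.1) < τ)).card := by
    simp only [card_filter]
    rw [sum_product]
  have h3 : ((A ×ˢ A).filter (fun p => rep A (p.2 - p.1) < τ)).card ≤
      ∑ g ∈ A - A, τ := by
    rw [card_eq_sum_card_fiberwise (f := fun p : G × G => p.2 - p.1) (t := A - A)]
    · apply sum_le_sum
      intro g _
      by_cases hg : rep A g < τ
      · refine le_trans ?_ hg.le
        rw [rep]
        apply card_le_card_of_injOn (fun p => p.1)
        · intro p hp
          rw [mem_coe, mem_filter, mem_filter, mem_product] at hp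
          rw [mem_coe, mem_filter]
          refine ⟨hp.1.1.1, ?_⟩
          have : p.1 + g = p.2 := by rw [← hp.2]; abel
          rw [this]
          exact hp.1.1.2
        · intro p hp p' hp' h
          rw [mem_coe, mem_filter] at hp hp'
          have h4 : p.1 = p'.1 := h
          have h5 : p.2 = p'.2 := by
            have e1 : p.2 = g + p.1 := by rw [← hp.2]; abel
            have e2 : p'.2 = g + p'.1 := by rw [← hp'.2]; abel
            rw [e1, e2, h4]
          exact Prod.ext h4 h5
      · have : ((A ×ˢ A).filter (fun p => rep A (p.2 - p.1) < τ)).filter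
            (fun p => p.2 - p.1 = g) = ∅ := by
          apply filter_eq_empty_iff.mpr
          intro p hp h
          rw [mem_filter] at hp
          rw [h] at hp
          exact hg hp.2
        rw [this]
        simp
    · intro p hp
      rw [mem_coe, mem_filter, mem_product] at hp
      rw [mem_coe]
      exact sub_mem_sub hp.1.2 hp.1.1
  have h4 : ∑ g ∈ A - A, τ ≤ (K * A.card) * τ := by
    rw [sum_const, smul_eq_mul]
    gcongr
  rw [h2, sum_const, smul_eq_mul] at h1
  have e : A.card * (K * τ) = (K * A.card) * τ := by ring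
  omega

omit [Fintype G] in
/-- a small subset `R` of `A` such that `R - R` contains all the popular differences. -/
lemma exists_sparse_cover (A : Finset G) (q j K : ℕ) (hq : q = 2 ^ j) (hj : 16 ≤ j)
    (hA : A.card = q ^ 50) (hK : K ≤ q ^ 2) (hd : (A - A).card ≤ K * A.card) :
    ∃ R ⊆ A, R.card ≤ q ^ 33 ∧ ∀ g, q ^ 40 ≤ rep A g → g ∈ R - R := by
  classical
  have hq1 : 65536 ≤ q := by
    rw [hq]
    calc 65536 = 2 ^ 16 := by norm_num
      _ ≤ 2 ^ j := Nat.pow_le_pow_right (by norm_num) hj
  have hq2 : 104 * j + 3 ≤ q := by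
    rw [hq]
    obtain ⟨e, rfl⟩ := Nat.exists_eq_add_of_le hj
    have : e < 2 ^ e := Nat.lt_two_pow_self
    rw [pow_add]
    norm_num
    omega
  have hqpos : 0 < q := by omega
  set P := (A - A).filter (fun g => q ^ 40 ≤ rep A g) with hP
  have hPc : P.card ≤ q ^ 52 := by
    calc P.card ≤ (A - A).card := card_le_card (filter_subset _ _)
      _ ≤ K * A.card := hd
      _ ≤ q ^ 2 * q ^ 50 := by rw [hA]; gcongr
      _ = q ^ 52 := by ring
  set S : G → Finset G := fun g => A.filter (fun a => a + g ∈ A) with hS
  have hSc : ∀ g ∈ P, q ^ 40 ≤ (S g).card := by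
    intro g hg
    exact (mem_filter.mp hg).2
  -- first hitting set
  obtain ⟨R1, hR1A, hR1c, hR1⟩ := exists_hitting A (P ×ˢ smallSubsets A (q ^ 20))
    (fun i => S i.1 \ i.2) (q ^ 39) (q ^ 11) (q ^ 21) (Nat.one_le_pow _ _ hqpos)
    (by
      rintro ⟨g, Y⟩ hi
      rw [mem_product, mem_smallSubsets] at hi
      have h1 := hSc g hi.1
      have h2 : A ∩ (S g \ Y) = S g \ Y := by
        apply inter_eq_right.mpr
        exact sdiff_subset.trans (filter_subset _ _)
      simp only
      rw [h2]
      have h3 : (S g).card ≤ (S g \ Y).card + Y.card := by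
        have := le_card_sdiff Y (S g)
        omega
      have h4 : q ^ 39 + q ^ 20 ≤ q ^ 40 := by
        have e1 : q ^ 40 = q * q ^ 39 := by ring
        have e2 : q ^ 20 ≤ q ^ 39 := Nat.pow_le_pow_right hqpos (by norm_num)
        have e3 : 2 * q ^ 39 ≤ q * q ^ 39 := by gcongr; omega
        omega
      have h5 := hi.2.2
      simp only at h5
      omega)
    (by rw [hA]; exact le_of_eq (by ring))
    (by
      rw [card_product]
      have h1 := card_smallSubsets_le A (q ^ 20)
      have h2 : A.card + 1 ≤ 2 ^ (50 * j + 1) := by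
        rw [hA, hq, ← pow_mul, mul_comm j 50, pow_succ]
        have : 1 ≤ 2 ^ (50 * j) := Nat.one_le_two_pow
        omega
      calc P.card * (smallSubsets A (q ^ 20)).card
          ≤ q ^ 52 * (2 ^ (50 * j + 1)) ^ (q ^ 20) := by
            gcongr
            exact h1.trans (Nat.pow_le_pow_left h2 _)
        _ = 2 ^ (52 * j + (50 * j + 1) * q ^ 20) := by
            rw [pow_add 2 (52 * j), pow_mul 2 (50 * j + 1)]
            congr 1
            rw [hq, ← pow_mul, mul_comm j 52]
        _ < 2 ^ (q ^ 21) := by
            apply Nat.pow_lt_pow_right (by norm_num)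
            have e1 : q ^ 21 = q * q ^ 20 := by ring
            have e2 : (104 * j + 3) * q ^ 20 ≤ q * q ^ 20 := by gcongr
            have e3 : 1 ≤ q ^ 20 := Nat.one_le_pow _ _ hqpos
            have e4 : 52 * j * 1 ≤ 52 * j * q ^ 20 := by gcongr
            have e5 : (104 * j + 3) * q ^ 20 = 52 * j * q ^ 20 + (50 * j + 1) * q ^ 20 +
              2 * j * q ^ 20 + 2 * q ^ 20 := by ring
            omega)
  have hR1S : ∀ g ∈ P, q ^ 20 ≤ (R1 ∩ S g).card := by
    intro g hg
    by_contra hcon
    push Not at hcon
    have h1 := hR1 (g, R1 ∩ S g) (by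
      rw [mem_product, mem_smallSubsets]
      exact ⟨hg, inter_subset_left.trans hR1A, hcon.le⟩)
    obtain ⟨x, hx⟩ := h1
    simp only [mem_inter, mem_sdiff, not_and] at hx
    exact hx.2.2 hx.1 hx.2.1
  -- second hitting set
  obtain ⟨R2, hR2A, hR2c, hR2⟩ := exists_hitting A P
    (fun g => (R1 ∩ S g).image (fun a => a + g)) (q ^ 20) (q ^ 30) q
    (Nat.one_le_pow _ _ hqpos)
    (by
      intro g hg
      have h2 : A ∩ (R1 ∩ S g).image (fun a => a + g) = (R1 ∩ S g).image (fun a => a + g) := by
        apply inter_eq_right.mpr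
        intro x hx
        rw [mem_image] at hx
        obtain ⟨a, ha, rfl⟩ := hx
        rw [mem_inter, hS, mem_filter] at ha
        exact ha.2.2
      rw [h2, card_image_of_injective _ (add_left_injective g)]
      exact hR1S g hg)
    (by rw [hA]; exact le_of_eq (by ring))
    (by
      calc P.card ≤ q ^ 52 := hPc
        _ = 2 ^ (52 * j) := by rw [hq, ← pow_mul, mul_comm j 52]
        _ < 2 ^ q := by
          apply Nat.pow_lt_pow_right (by norm_num)
          omega)
  refine ⟨R1 ∪ R2, union_subset hR1A hR2A, ?_, ?_⟩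
  · calc (R1 ∪ R2).card ≤ R1.card + R2.card := card_union_le _ _
      _ ≤ q ^ 11 * q ^ 21 + q ^ 30 * q := by gcongr
      _ = q ^ 32 + q ^ 31 := by ring
      _ ≤ q ^ 33 := by
        have e1 : q ^ 33 = q * q ^ 32 := by ring
        have e2 : q ^ 31 ≤ q ^ 32 := Nat.pow_le_pow_right hqpos (by norm_num)
        have e3 : 2 * q ^ 32 ≤ q * q ^ 32 := by gcongr; omega
        omega
  · intro g hg
    have hgP : g ∈ P := by
      rw [hP, mem_filter]
      refine ⟨?_, hg⟩
      apply rep_pos
      exact lt_of_lt_of_le (by positivity) hg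
    obtain ⟨y, hy⟩ := hR2 g hgP
    rw [mem_inter, mem_image] at hy
    obtain ⟨hy2, a, ha, rfl⟩ := hy
    rw [mem_inter] at ha
    have : g = (a + g) - a := by abel
    rw [this]
    exact sub_mem_sub (mem_union_right _ hy2) (mem_union_left _ ha.1)

/-- the covering family for sets of small doubling. -/
noncomputable def coverFam (K s r Δ a b : ℕ) : Finset (Finset G) :=
  (smallSubsets (univ : Finset G) (2 * K)).biUnion fun T' =>
    (smallSubsets (Cl Δ T') r).biUnion fun T =>
      (smallSubsets T.addSpan a).biUnion fun R =>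
        if (R - R).card ≤ K * s then
          T.addSpan.biUnion fun t =>
            (smallSubsets T.addSpan b).biUnion fun E =>
              (smallSubsets ((R - R).image (fun x => t + x)) s).image (fun X => E ∪ X)
        else ∅

lemma card_coverFam_le (K s r Δ a b k : ℕ) (hK : 1 ≤ K)
    (hk : ∀ c : ℕ, 1 ≤ c → (univ.filter (fun x : G => c • x = 0)).card ≤ c ^ k) :
    (coverFam (G := G) K s r Δ a b).card ≤
      (Fintype.card G + 1) ^ (2 * K) *
      ((Δ * ((2 * Δ + 1) ^ (2 * K) * Δ ^ k) + 1) ^ r *
      ((3 ^ r + 1) ^ a * (3 ^ r * ((3 ^ r + 1) ^ b * (4 * K) ^ s)))) := by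
  classical
  calc (coverFam (G := G) K s r Δ a b).card
      ≤ (smallSubsets (univ : Finset G) (2 * K)).card *
        ((Δ * ((2 * Δ + 1) ^ (2 * K) * Δ ^ k) + 1) ^ r *
      ((3 ^ r + 1) ^ a * (3 ^ r * ((3 ^ r + 1) ^ b * (4 * K) ^ s)))) := by
        apply card_biUnion_le_card_mul
        intro T' hT'
        rw [mem_smallSubsets] at hT'
        calc _ ≤ (smallSubsets (Cl Δ T') r).card *
              ((3 ^ r + 1) ^ a * (3 ^ r * ((3 ^ r + 1) ^ b * (4 * K) ^ s))) := by
              apply card_biUnion_le_card_mul
              intro T hT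
              rw [mem_smallSubsets] at hT
              have hspan : T.addSpan.card ≤ 3 ^ r :=
                (card_addSpan_le T).trans (Nat.pow_le_pow_right (by norm_num) hT.2)
              calc _ ≤ (smallSubsets T.addSpan a).card *
                    (3 ^ r * ((3 ^ r + 1) ^ b * (4 * K) ^ s)) := by
                    apply card_biUnion_le_card_mul
                    intro R _
                    split_ifs with hR
                    · calc _ ≤ T.addSpan.card * ((3 ^ r + 1) ^ b * (4 * K) ^ s) := by
                            apply card_biUnion_le_card_mul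
                            intro t _
                            calc _ ≤ (smallSubsets T.addSpan b).card * (4 * K) ^ s := by
                                  apply card_biUnion_le_card_mul
                                  intro E _
                                  refine card_image_le.trans ?_
                                  apply card_smallSubsets_le' _ _ _ hK
                                  exact card_image_le.trans hR
                              _ ≤ _ := by
                                  gcongr
                                  refine (card_smallSubsets_le _ _).trans ?_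
                                  gcongr
                        _ ≤ _ := by gcongr
                    · simp
                _ ≤ _ := by
                    gcongr
                    refine (card_smallSubsets_le _ _).trans ?_
                    gcongr
          _ ≤ _ := by
              gcongr
              refine (card_smallSubsets_le _ _).trans ?_
              gcongr
              refine (card_Cl_le Δ k T' hk).trans ?_
              gcongr
              · omega
              · exact hT'.2
    _ ≤ _ := by
        gcongr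
        refine (card_smallSubsets_le _ _).trans ?_
        simp

/-- sets of small doubling belong to the covering family. -/
theorem mem_coverFam (A : Finset G) (q j K : ℕ) (hq : q = 2 ^ j) (hj : 16 ≤ j)
    (hA : A.card = q ^ 50) (hK : K ≤ q ^ 2) (hd : (A - A).card ≤ K * q ^ 50) :
    A ∈ coverFam K (q ^ 50) (q ^ 5) ((8 * q ^ 5) ^ (q ^ 5)) (q ^ 33) (q ^ 42) := by
  classical
  have hq1 : 65536 ≤ q := by
    rw [hq]
    calc 65536 = 2 ^ 16 := by norm_num
      _ ≤ 2 ^ j := Nat.pow_le_pow_right (by norm_num) hj
  have hqpos : 0 < q := by omega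
  have hAne : A.Nonempty := by
    rw [← card_pos, hA]; positivity
  rw [← hA] at hd
  obtain ⟨T, hTA, hTc, hAT⟩ := exists_base A hAne q K (by omega) hA.le hK hd
  obtain ⟨T', hT'T, hT'c, hT'⟩ := exists_small_basis A T hAne hTA hAT K hd (q ^ 5)
    (Nat.one_le_pow _ _ hqpos) hTc
  obtain ⟨R, hRA, hRc, hR⟩ := exists_sparse_cover A q j K hq hj hA hK hd
  obtain ⟨t, htA, ht⟩ := exists_popular_center A hAne K (q ^ 40) hd
  rw [coverFam, mem_biUnion]
  refine ⟨T', mem_smallSubsets.mpr ⟨subset_univ _, hT'c⟩, ?_⟩
  rw [mem_biUnion]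
  refine ⟨T, mem_smallSubsets.mpr ⟨?_, hTc⟩, ?_⟩
  · intro x hx
    rw [mem_Cl]
    exact hT' x hx
  rw [mem_biUnion]
  refine ⟨R, mem_smallSubsets.mpr ⟨hRA.trans hAT, hRc⟩, ?_⟩
  rw [if_pos ((card_le_card (sub_subset_sub hRA hRA)).trans (by rw [← hA]; exact hd))]
  rw [mem_biUnion]
  refine ⟨t, hAT htA, ?_⟩
  rw [mem_biUnion]
  refine ⟨A.filter (fun b => rep A (b - t) < q ^ 40), mem_smallSubsets.mpr
    ⟨(filter_subset _ _).trans hAT, ?_⟩, ?_⟩
  · refine ht.trans ?_
    calc K * q ^ 40 ≤ q ^ 2 * q ^ 40 := by gcongr
      _ = q ^ 42 := by ring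
  rw [mem_image]
  refine ⟨A.filter (fun b => ¬ (rep A (b - t) < q ^ 40)), mem_smallSubsets.mpr ⟨?_, ?_⟩, ?_⟩
  · intro b hb
    rw [mem_filter, not_lt] at hb
    rw [mem_image]
    exact ⟨b - t, hR _ hb.2, by abel⟩
  · rw [← hA]
    exact card_le_card (filter_subset _ _)
  · exact filter_union_filter_not_eq _ _

end Helper7.Ramsey
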